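import Mathlib

set_option autoImplicit false
set_option linter.unusedSectionVars false

/-! Averaging over a product of finite grids: a discrete version of the Godefroy-Kalton lifting. -/

open MeasureTheory Finset

namespace Pool.Agent.H547Z.Free

variable {I : Type} (N : I → ℕ)

/-- the compact group of grid positions -/
def Om : Type := ∀ i, ZMod (N i)

instance : AddCommGroup (Om N) := inferInstanceAs (AddCommGroup (∀ i, ZMod (N i)))
instance : TopologicalSpace (Om N) := inferInstanceAs (TopologicalSpace (∀ i, ZMod (N i)))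
instance : T2Space (Om N) := inferInstanceAs (T2Space (∀ i, ZMod (N i)))

instance zmodTG (n : ℕ) : IsTopologicalAddGroup (ZMod n) where
  continuous_add := continuous_of_discreteTopology
  continuous_neg := continuous_of_discreteTopology

instance : IsTopologicalAddGroup (Om N) :=
  inferInstanceAs (IsTopologicalAddGroup (∀ i, ZMod (N i)))
instance : MeasurableSpace (Om N) := borel _
instance : BorelSpace (Om N) := ⟨rfl⟩

variable [∀ i, NeZero (N i)]

instance : CompactSpace (Om N) := inferInstanceAs (CompactSpace (∀ i, ZMod (N i)))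

/-- the Haar probability measure -/
noncomputable def mu : Measure (Om N) := Measure.addHaarMeasure ⊤

instance : IsProbabilityMeasure (mu N) := ⟨by
  have := Measure.addHaarMeasure_self (G := Om N) (K₀ := ⊤)
  simpa [mu] using this⟩

instance : (mu N).IsAddLeftInvariant := by unfold mu; infer_instance

variable {N}

theorem integrable_cont {E : Type} [NormedAddCommGroup E] {g : Om N → E} (hg : Continuous g) :
    Integrable g (mu N) :=
  hg.integrable_of_hasCompactSupport (HasCompactSupport.of_compactSpace g)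

theorem cont_coord (j : I) : Continuous fun a : Om N => a j :=
  continuous_apply (A := fun i => ZMod (N i)) j

variable [DecidableEq I]

/-- the vector with one nonzero coordinate -/
def sing (j : I) (c : ZMod (N j)) : Om N := Pi.single (M := fun i => ZMod (N i)) j c

theorem sing_add_self (j : I) (c : ZMod (N j)) (a : Om N) : (sing j c + a) j = c + a j := by
  show Pi.single (M := fun i => ZMod (N i)) j c j + a j = _
  rw [Pi.single_eq_same]

theorem sing_add_ne (j : I) (c : ZMod (N j)) (a : Om N) {i : I} (h : i ≠ j) :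
    (sing j c + a) i = a i := by
  show Pi.single (M := fun i => ZMod (N i)) j c i + a i = _
  rw [Pi.single_eq_of_ne h, zero_add]

theorem prob_coord (j : I) (c : ZMod (N j)) :
    ∫ a : Om N, (if a j = c then (1 : ℝ) else 0) ∂mu N = 1 / N j := by
  have hc : ∀ c : ZMod (N j), Continuous fun a : Om N => if a j = c then (1 : ℝ) else 0 :=
    fun c => (continuous_of_discreteTopology
      (f := fun x : ZMod (N j) => if x = c then (1 : ℝ) else 0)).comp (cont_coord j)
  have h1 : ∀ d : ZMod (N j), ∫ a : Om N, (if a j = d then (1 : ℝ) else 0) ∂mu N =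
      ∫ a : Om N, (if a j = c then (1 : ℝ) else 0) ∂mu N := by
    intro d
    rw [← integral_add_left_eq_self (fun a : Om N => if a j = d then (1 : ℝ) else 0)
      (sing j (d - c))]
    refine integral_congr_ae (Filter.Eventually.of_forall fun a => ?_)
    show (if (sing j (d - c) + a) j = d then (1 : ℝ) else 0) = if a j = c then (1 : ℝ) else 0
    rw [sing_add_self]
    by_cases h : a j = c
    · rw [if_pos h, if_pos (by rw [h]; ring)]
    · rw [if_neg h, if_neg (fun h' => h (by linear_combination h'))]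
  have h2 : ∑ d : ZMod (N j), ∫ a : Om N, (if a j = d then (1 : ℝ) else 0) ∂mu N = 1 := by
    rw [← integral_finsetSum _ (fun d _ => integrable_cont (hc d))]
    simp
  simp_rw [h1] at h2
  rw [Finset.sum_const, Finset.card_univ, ZMod.card, nsmul_eq_mul] at h2
  have h3 : (N j : ℝ) ≠ 0 := by exact_mod_cast NeZero.ne (N j)
  field_simp
  linarith

variable {V : Type} [NormedAddCommGroup V] [NormedSpace ℝ V] [CompleteSpace V]

/-- the point of the grid -/
noncomputable def Psi (u : I → V) (a : Om N) : V := ∑' i, ((a i).val : ℝ) • u i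

variable {u : I → V}

theorem term_le (a : Om N) (i : I) : ‖((a i).val : ℝ) • u i‖ ≤ (N i : ℝ) * ‖u i‖ := by
  rw [norm_smul, Real.norm_natCast]
  refine mul_le_mul_of_nonneg_right ?_ (norm_nonneg _)
  exact_mod_cast (ZMod.val_lt (a i)).le

theorem summable_term (hs : Summable fun i => (N i : ℝ) * ‖u i‖) (a : Om N) :
    Summable fun i => ((a i).val : ℝ) • u i :=
  Summable.of_norm_bounded hs (term_le a)

theorem cont_Psi (hs : Summable fun i => (N i : ℝ) * ‖u i‖) :
    Continuous (Psi (N := N) u) := by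
  refine continuous_tsum (fun i => ?_) hs (fun i a => term_le a i)
  exact (continuous_of_discreteTopology
    (f := fun x : ZMod (N i) => (x.val : ℝ) • u i)).comp (cont_coord i)

theorem Psi_zero : Psi (N := N) u 0 = 0 := by
  unfold Psi
  have : ∀ i, (((0 : Om N) i).val : ℝ) • u i = 0 := fun i => by
    show ((((0 : ZMod (N i))).val : ℕ) : ℝ) • u i = 0
    rw [ZMod.val_zero, Nat.cast_zero, zero_smul]
  simp_rw [this]
  exact tsum_zero

theorem Psi_shift (hs : Summable fun i => (N i : ℝ) * ‖u i‖) (j : I) (a : Om N)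
    (h : a j ≠ -1) : Psi u (sing j 1 + a) = Psi u a + u j := by
  have hval : (1 + a j).val = (a j).val + 1 := by
    have h1 : (a j).val + 1 < N j := by
      by_contra hc
      have h2 : (a j).val + 1 = N j := by
        have := ZMod.val_lt (a j)
        omega
      apply h
      have h3 : (((a j).val + 1 : ℕ) : ZMod (N j)) = 0 := by
        rw [h2]; exact ZMod.natCast_self _
      rw [Nat.cast_add, ZMod.natCast_zmod_val, Nat.cast_one] at h3
      linear_combination h3
    have h4 : (1 + a j) = (((a j).val + 1 : ℕ) : ZMod (N j)) := by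
      rw [Nat.cast_add, ZMod.natCast_zmod_val, Nat.cast_one, add_comm]
    rw [h4, ZMod.val_cast_of_lt h1]
  have h1 : ∀ i, (((sing j 1 + a : Om N) i).val : ℝ) • u i =
      ((a i).val : ℝ) • u i + if i = j then u j else 0 := by
    intro i
    by_cases hi : i = j
    · subst hi
      rw [sing_add_self, hval, if_pos rfl, Nat.cast_add, add_smul, Nat.cast_one, one_smul]
    · rw [sing_add_ne _ _ _ hi, if_neg hi, add_zero]
  unfold Psi
  rw [tsum_congr h1, (summable_term hs a).tsum_add (hasSum_ite_eq j (u j)).summable, tsum_ite_eq]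

variable (N u) in
/-- translation by `w` moves the grid measure by at most `κ` in total variation -/
def Cost (w : V) (κ : ℝ) : Prop :=
  ∀ g : V → ℝ, Continuous g → ∀ B : ℝ, (∀ x, |g x| ≤ B) →
    |∫ a, g (Psi u a + w) ∂mu N - ∫ a, g (Psi u a) ∂mu N| ≤ 2 * B * κ

theorem cost_zero : Cost N u 0 0 := by
  intro g _ B _
  simp

theorem cost_mono {w : V} {κ κ' : ℝ} (h : Cost N u w κ) (hk : κ ≤ κ') : Cost N u w κ' := by
  intro g hg B hB
  have hB0 : 0 ≤ B := (abs_nonneg _).trans (hB 0)
  exact (h g hg B hB).trans (mul_le_mul_of_nonneg_left hk (by positivity))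

theorem cost_step (hs : Summable fun i => (N i : ℝ) * ‖u i‖) (j : I) :
    Cost N u (u j) (1 / N j) := by
  intro g hg B hB
  have hc := cont_Psi hs
  have h1 : Continuous fun a : Om N => g (Psi u a + u j) := hg.comp (hc.add continuous_const)
  have h2 : Continuous fun a : Om N => g (Psi u (sing j 1 + a)) :=
    hg.comp (hc.comp (continuous_const.add continuous_id))
  have h3 : Continuous fun a : Om N => if a j = -1 then (1 : ℝ) else 0 :=
    (continuous_of_discreteTopology
      (f := fun x : ZMod (N j) => if x = -1 then (1 : ℝ) else 0)).comp (cont_coord j)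
  rw [← integral_add_left_eq_self (fun a : Om N => g (Psi u a)) (sing j 1),
    ← integral_sub (integrable_cont h1) (integrable_cont h2), ← prob_coord j (-1),
    ← integral_const_mul]
  refine (abs_integral_le_integral_abs).trans ?_
  refine integral_mono (integrable_cont (h1.sub h2).abs)
    (integrable_cont (continuous_const.mul h3)) fun a => ?_
  by_cases h : a j = -1
  · simp only [if_pos h, mul_one]
    refine (abs_sub _ _).trans ?_
    linarith [hB (Psi u a + u j), hB (Psi u (sing j 1 + a))]
  · simp only [if_neg h, mul_zero]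
    rw [Psi_shift hs j a h, sub_self, abs_zero]

theorem cost_neg {w : V} {κ : ℝ} (h : Cost N u w κ) : Cost N u (-w) κ := by
  intro g hg B hB
  have := h (fun x => g (x + -w)) (hg.comp (continuous_id.add continuous_const)) B
    (fun x => hB _)
  simp only [add_neg_cancel_right] at this
  rwa [abs_sub_comm]

theorem cost_add {w w' : V} {κ κ' : ℝ} (h : Cost N u w κ) (h' : Cost N u w' κ') :
    Cost N u (w + w') (κ + κ') := by
  intro g hg B hB
  have h1 := h (fun x => g (x + w')) (hg.comp (continuous_id.add continuous_const)) B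
    (fun x => hB _)
  have h2 := h' g hg B hB
  simp only [add_assoc] at h1
  have h3 := abs_sub_le (∫ a, g (Psi u a + (w + w')) ∂mu N) (∫ a, g (Psi u a + w') ∂mu N)
    (∫ a, g (Psi u a) ∂mu N)
  linarith

theorem cost_sum {ι : Type} (s : Finset ι) (w : ι → V) (κ : ι → ℝ)
    (h : ∀ i ∈ s, Cost N u (w i) (κ i)) : Cost N u (∑ i ∈ s, w i) (∑ i ∈ s, κ i) := by
  classical
  induction s using Finset.induction_on with
  | empty => simpa using cost_zero
  | insert a s ha ih =>
    rw [Finset.sum_insert ha, Finset.sum_insert ha]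
    exact cost_add (h a (mem_insert_self _ _)) (ih fun i hi => h i (mem_insert_of_mem hi))

theorem cost_nsmul {w : V} {κ : ℝ} (h : Cost N u w κ) (m : ℕ) :
    Cost N u ((m : ℝ) • w) (m * κ) := by
  have := cost_sum (range m) (fun _ => w) (fun _ => κ) (fun _ _ => h)
  rwa [Finset.sum_const, Finset.sum_const, card_range, nsmul_eq_mul, ← Nat.cast_smul_eq_nsmul ℝ]
    at this

variable (N u) in
/-- averaged increments -/
noncomputable def Aop (f : V → ℝ) (w : V) : ℝ := ∫ a, (f (Psi u a + w) - f (Psi u a)) ∂mu N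

variable {f : V → ℝ}

theorem lip_abs (hf : LipschitzWith 1 f) (x w : V) : |f (x + w) - f x| ≤ ‖w‖ := by
  have := hf.dist_le_mul (x + w) x
  rwa [Real.dist_eq, dist_eq_norm, add_sub_cancel_left, NNReal.coe_one, one_mul] at this

theorem A_le (hf : LipschitzWith 1 f) (w : V) : |Aop N u f w| ≤ ‖w‖ := by
  have := norm_integral_le_of_norm_le_const (μ := mu N)
    (f := fun a : Om N => f (Psi u a + w) - f (Psi u a)) (C := ‖w‖)
    (Filter.Eventually.of_forall fun a => lip_abs hf _ _)
  simpa [Aop] using this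

theorem A_zero : Aop N u f 0 = 0 := by simp [Aop]

theorem A_add (hs : Summable fun i => (N i : ℝ) * ‖u i‖) (hf : LipschitzWith 1 f) {w : V}
    {κ : ℝ} (h : Cost N u w κ) (w' : V) :
    |Aop N u f (w + w') - Aop N u f w - Aop N u f w'| ≤ 2 * ‖w'‖ * κ := by
  have hc := cont_Psi hs
  have hi : ∀ v : V, Integrable (fun a : Om N => f (Psi u a + v)) (mu N) := fun v =>
    integrable_cont (hf.continuous.comp (hc.add continuous_const))
  have hi0 : Integrable (fun a : Om N => f (Psi u a)) (mu N) :=
    integrable_cont (hf.continuous.comp hc)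
  have h1 := h (fun x => f (x + w') - f x)
    ((hf.continuous.comp (continuous_id.add continuous_const)).sub hf.continuous) ‖w'‖
    (fun x => lip_abs hf x w')
  simp only [add_assoc] at h1
  rw [integral_sub (hi _) (hi _), integral_sub (hi _) hi0] at h1
  unfold Aop
  rw [integral_sub (hi _) hi0, integral_sub (hi _) hi0, integral_sub (hi _) hi0]
  convert h1 using 2
  ring

theorem A_sum (hs : Summable fun i => (N i : ℝ) * ‖u i‖) (hf : LipschitzWith 1 f) {ι : Type}
    (s : Finset ι) (w : ι → V) (κ : ι → ℝ) (h : ∀ i ∈ s, Cost N u (w i) (κ i))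
    (hk : ∀ i ∈ s, 0 ≤ κ i) (K : ℝ) (hK : ∑ i ∈ s, κ i ≤ K) :
    |Aop N u f (∑ i ∈ s, w i) - ∑ i ∈ s, Aop N u f (w i)| ≤ 2 * K * ∑ i ∈ s, ‖w i‖ := by
  classical
  induction s using Finset.induction_on with
  | empty => simp [A_zero]
  | insert a s ha ih =>
    rw [Finset.sum_insert ha] at hK
    have hK' : ∑ i ∈ s, κ i ≤ K := by linarith [hk a (mem_insert_self _ _)]
    have h1 := ih (fun i hi => h i (mem_insert_of_mem hi))
      (fun i hi => hk i (mem_insert_of_mem hi)) hK'
    have h2 := A_add hs hf
      (cost_mono (cost_sum s w κ fun i hi => h i (mem_insert_of_mem hi)) hK') (w a)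
    rw [Finset.sum_insert ha, Finset.sum_insert ha, Finset.sum_insert ha, add_comm (w a)]
    rw [abs_le] at h1 h2 ⊢
    constructor <;> nlinarith [h1.1, h1.2, h2.1, h2.2]

theorem A_sign (hs : Summable fun i => (N i : ℝ) * ‖u i‖) (hf : LipschitzWith 1 f) {w : V}
    {κ : ℝ} (h : Cost N u w κ) (hk : 0 ≤ κ) (m : ℕ) (c : ℝ) (hc : c = 1 ∨ c = -1) :
    |Aop N u f (c • (m : ℝ) • w) - c * m * Aop N u f w| ≤ 4 * (m * κ) * (m * ‖w‖) := by
  have h1 := A_sum hs hf (range m) (fun _ => w) (fun _ => κ) (fun _ _ => h) (fun _ _ => hk)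
    (m * κ) (by rw [Finset.sum_const, card_range, nsmul_eq_mul])
  simp only [Finset.sum_const, card_range, nsmul_eq_mul] at h1
  rw [← Nat.cast_smul_eq_nsmul ℝ] at h1
  have h0 : 0 ≤ (m * κ) * (m * ‖w‖) := by positivity
  rcases hc with rfl | rfl
  · rw [one_smul, one_mul]
    linarith
  · have h2 := A_add hs hf (cost_nsmul h m) (-((m : ℝ) • w))
    rw [add_neg_cancel, A_zero, norm_neg, norm_smul, Real.norm_natCast] at h2
    rw [neg_one_smul]
    rw [abs_le] at h1 h2 ⊢
    constructor <;> nlinarith [h1.1, h1.2, h2.1, h2.2]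

/-- the main estimate -/
theorem lift_bound (hs : Summable fun i => (N i : ℝ) * ‖u i‖) (hf : LipschitzWith 1 f)
    {ι : Type} (s : Finset ι) (e : ι → I) (m : ι → ℕ) (c : ι → ℝ)
    (hc : ∀ i ∈ s, c i = 1 ∨ c i = -1) (K : ℝ) (hK : ∑ i ∈ s, (m i : ℝ) * (1 / N (e i)) ≤ K) :
    |∑ i ∈ s, c i * m i * Aop N u f (u (e i))| ≤
      ‖∑ i ∈ s, c i • (m i : ℝ) • u (e i)‖ + 6 * K * ∑ i ∈ s, (m i : ℝ) * ‖u (e i)‖ := by
  have hcost : ∀ i ∈ s, Cost N u (c i • (m i : ℝ) • u (e i)) ((m i : ℝ) * (1 / N (e i))) := by
    intro i hi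
    have := cost_nsmul (cost_step hs (e i)) (m i)
    rcases hc i hi with h | h
    · rw [h, one_smul]; exact this
    · rw [h, neg_one_smul]; exact cost_neg this
  have hk0 : ∀ i ∈ s, 0 ≤ (m i : ℝ) * (1 / N (e i)) := fun i _ => by positivity
  have h1 := A_sum hs hf s _ _ hcost hk0 K hK
  have hn : ∀ i ∈ s, ‖c i • (m i : ℝ) • u (e i)‖ = (m i : ℝ) * ‖u (e i)‖ := by
    intro i hi
    rw [norm_smul, norm_smul, Real.norm_natCast]
    rcases hc i hi with h | h <;> rw [h] <;> simp
  rw [Finset.sum_congr rfl hn] at h1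
  have h2 : |∑ i ∈ s, Aop N u f (c i • (m i : ℝ) • u (e i)) -
      ∑ i ∈ s, c i * m i * Aop N u f (u (e i))| ≤ 4 * K * ∑ i ∈ s, (m i : ℝ) * ‖u (e i)‖ := by
    rw [← Finset.sum_sub_distrib, Finset.mul_sum]
    refine (Finset.abs_sum_le_sum_abs _ _).trans (Finset.sum_le_sum fun i hi => ?_)
    refine (A_sign hs hf (cost_step hs (e i)) (by positivity) (m i) (c i) (hc i hi)).trans ?_
    have h3 : (m i : ℝ) * (1 / N (e i)) ≤ K := (Finset.single_le_sum hk0 hi).trans hK
    have h4 : 0 ≤ (m i : ℝ) * ‖u (e i)‖ := by positivity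
    nlinarith
  have h3 := A_le (N := N) (u := u) hf (∑ i ∈ s, c i • (m i : ℝ) • u (e i))
  rw [abs_le] at h1 h2 h3 ⊢
  constructor <;> linarith [h1.1, h1.2, h2.1, h2.2, h3.1, h3.2]

end Pool.Agent.H547Z.Free
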