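import Mathlib
import Pool.Agent.H812R2.AP.NoAP

set_option autoImplicit false

/-! The dual form of Davie's trace argument. -/

open Filter Topology Finset

namespace Pool.Agent.H547Z.Free

open Pool.Agent.H812R2.AP Pool.Agent.H812R2.AP.Sys

variable {E : Type} [NormedAddCommGroup E] [NormedSpace ℝ E]

theorem swap3 (G A B : Finset ℕ) (p q X : ℕ → ℕ → ℝ) :
    ∑ g ∈ G, ∑ j ∈ A, ∑ i ∈ B, p j g * q i g * X j i =
      ∑ j ∈ A, ∑ i ∈ B, (∑ g ∈ G, p j g * q i g) * X j i := by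
  rw [Finset.sum_comm]
  refine Finset.sum_congr rfl fun j _ => ?_
  rw [Finset.sum_comm]
  refine Finset.sum_congr rfl fun i _ => ?_
  rw [Finset.sum_mul]

theorem pair_expand (A B : Finset ℕ) (p q : ℕ → ℝ) (φ : ℕ → E →L[ℝ] ℝ) (L : ℕ → E)
    (S : E →L[ℝ] E) :
    (∑ j ∈ A, p j • φ j) (S (∑ i ∈ B, q i • L i)) =
      ∑ j ∈ A, ∑ i ∈ B, p j * q i * φ j (S (L i)) := by
  rw [_root_.sum_apply]
  refine Finset.sum_congr rfl fun j _ => ?_
  rw [smul_apply, map_sum, map_sum, smul_eq_mul, Finset.mul_sum]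
  refine Finset.sum_congr rfl fun i _ => ?_
  rw [map_smul, map_smul, smul_eq_mul, mul_assoc]

variable (s : Sys) (φ : ℕ → ℕ → E →L[ℝ] ℝ) (L : ℕ → ℕ → E)

/-- normalised traces -/
noncomputable def bet (k : ℕ) (S : E →L[ℝ] E) : ℝ :=
  (1 / 2 ^ k : ℝ) * ∑ j ∈ range (2 ^ k), φ k j (S (L k j))

/-- the test vectors -/
noncomputable def yv (k g : ℕ) : E :=
  ∑ j ∈ range (2 ^ k), s.sg k j g • L k j + ∑ j ∈ range (2 ^ (k + 1)), s.tt k j g • L (k + 1) j

/-- the test functionals -/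
noncomputable def Ph (k g : ℕ) : E →L[ℝ] ℝ :=
  (1 / 2 ^ (k + 1) : ℝ) • (∑ j ∈ range (2 ^ (k + 1)), s.tt k j g • φ (k + 1) j) -
    (1 / 2 ^ k : ℝ) • (∑ j ∈ range (2 ^ k), s.sg k j g • φ k j)

theorem diag_sum (n : ℕ) (c : ℝ) (P X : ℕ → ℕ → ℝ)
    (hP : ∀ i < n, ∀ j < n, P i j = if i = j then c else 0) :
    ∑ j ∈ range n, ∑ i ∈ range n, P j i * X j i = c * ∑ j ∈ range n, X j j := by
  rw [Finset.mul_sum]
  refine Finset.sum_congr rfl fun j hj => ?_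
  rw [Finset.sum_eq_single j]
  · rw [hP j (mem_range.1 hj) j (mem_range.1 hj), if_pos rfl]
  · intro i hi hij
    rw [hP j (mem_range.1 hj) i (mem_range.1 hi), if_neg (fun h => hij h.symm), zero_mul]
  · intro h; exact absurd hj h

theorem bet_succ (k : ℕ) (S : E →L[ℝ] E) : bet φ L (k + 1) S - bet φ L k S =
    (1 / 2 ^ (k + 2) : ℝ) * ∑ g ∈ range (2 ^ (k + 2)), Ph s φ k g (S (yv s L k g)) := by
  have h1 : ∀ g, Ph s φ k g (S (yv s L k g)) =
      (1 / 2 ^ (k + 1) : ℝ) * ((∑ j ∈ range (2 ^ (k + 1)), ∑ i ∈ range (2 ^ k),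
          s.tt k j g * s.sg k i g * φ (k + 1) j (S (L k i))) +
        ∑ j ∈ range (2 ^ (k + 1)), ∑ i ∈ range (2 ^ (k + 1)),
          s.tt k j g * s.tt k i g * φ (k + 1) j (S (L (k + 1) i))) -
      (1 / 2 ^ k : ℝ) * ((∑ j ∈ range (2 ^ k), ∑ i ∈ range (2 ^ k),
          s.sg k j g * s.sg k i g * φ k j (S (L k i))) +
        ∑ j ∈ range (2 ^ k), ∑ i ∈ range (2 ^ (k + 1)),
          s.sg k j g * s.tt k i g * φ k j (S (L (k + 1) i))) := by
    intro g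
    unfold Ph yv
    rw [sub_apply, smul_apply, smul_apply, map_add, map_add, map_add, pair_expand, pair_expand,
      pair_expand, pair_expand, smul_eq_mul, smul_eq_mul]
  simp_rw [h1]
  rw [Finset.sum_sub_distrib, ← Finset.mul_sum, ← Finset.mul_sum, Finset.sum_add_distrib,
    Finset.sum_add_distrib, swap3, swap3, swap3, swap3]
  have e1 : ∑ j ∈ range (2 ^ (k + 1)), ∑ i ∈ range (2 ^ k),
      (∑ g ∈ range (2 ^ (k + 2)), s.tt k j g * s.sg k i g) * φ (k + 1) j (S (L k i)) = 0 := by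
    refine Finset.sum_eq_zero fun j hj => Finset.sum_eq_zero fun i hi => ?_
    have := s.sgtt k i (mem_range.1 hi) j (mem_range.1 hj)
    simp_rw [mul_comm (s.sg k i _)] at this
    rw [this, zero_mul]
  have e2 : ∑ j ∈ range (2 ^ k), ∑ i ∈ range (2 ^ (k + 1)),
      (∑ g ∈ range (2 ^ (k + 2)), s.sg k j g * s.tt k i g) * φ k j (S (L (k + 1) i)) = 0 := by
    refine Finset.sum_eq_zero fun j hj => Finset.sum_eq_zero fun i hi => ?_
    rw [s.sgtt k j (mem_range.1 hj) i (mem_range.1 hi), zero_mul]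
  rw [e1, e2, diag_sum _ _ _ _ (s.tttt k), diag_sum _ _ _ _ (s.sgsg k)]
  unfold bet
  field_simp
  ring

theorem bet_succ_le (k : ℕ) (S : E →L[ℝ] E) {a b : ℝ}
    (ha : ∀ g < 2 ^ (k + 2), ‖Ph s φ k g‖ ≤ a) (hb : ∀ g < 2 ^ (k + 2), ‖S (yv s L k g)‖ ≤ b) :
    |bet φ L (k + 1) S - bet φ L k S| ≤ a * b := by
  rw [bet_succ s, abs_mul, abs_of_pos (by positivity : (0 : ℝ) < 1 / 2 ^ (k + 2))]
  have h2 : |∑ g ∈ range (2 ^ (k + 2)), Ph s φ k g (S (yv s L k g))| ≤ 2 ^ (k + 2) * (a * b) := by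
    refine (Finset.abs_sum_le_sum_abs _ _).trans ?_
    have h3 : ∑ g ∈ range (2 ^ (k + 2)), |Ph s φ k g (S (yv s L k g))| ≤
        ∑ g ∈ range (2 ^ (k + 2)), a * b := by
      refine Finset.sum_le_sum fun g hg => ?_
      refine ((Ph s φ k g).le_opNorm _).trans ?_
      exact mul_le_mul (ha g (mem_range.1 hg)) (hb g (mem_range.1 hg)) (norm_nonneg _)
        ((norm_nonneg _).trans (ha g (mem_range.1 hg)))
    refine h3.trans (le_of_eq ?_)
    rw [Finset.sum_const, card_range, nsmul_eq_mul]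
    push_cast
    ring
  calc (1 / 2 ^ (k + 2) : ℝ) * |∑ g ∈ range (2 ^ (k + 2)), Ph s φ k g (S (yv s L k g))|
      ≤ (1 / 2 ^ (k + 2)) * (2 ^ (k + 2) * (a * b)) := by gcongr
    _ = a * b := by field_simp

theorem tendsto_bet {C : ℝ} (h4 : ∀ k, ∀ j < 2 ^ k, ‖L k j‖ ≤ C)
    (h5 : ∀ y : E, ∀ ε > 0, ∃ K, ∀ k ≥ K, ∀ j < 2 ^ k, |φ k j y| ≤ ε) (S : E →L[ℝ] E)
    (hS : FiniteDimensional ℝ (LinearMap.range (S : E →ₗ[ℝ] E))) :
    ∀ ε > 0, ∃ k, |bet φ L k S| ≤ ε := by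
  set W := LinearMap.range (S : E →ₗ[ℝ] E) with hW
  have hC : 0 ≤ C := (norm_nonneg _).trans (h4 0 0 (by norm_num))
  intro ε hε
  let b := Module.finBasis ℝ W
  let f : Fin (Module.finrank ℝ W) → (W →L[ℝ] ℝ) := fun i =>
    LinearMap.toContinuousLinearMap (b.coord i)
  have hv : ∀ v : W, v = ∑ i, f i v • b i := fun v => (b.sum_repr v).symm
  set D : ℝ := ∑ i, ‖f i‖ with hD
  have hD0 : 0 ≤ D := Finset.sum_nonneg fun i _ => (f i).opNorm_nonneg
  set η : ℝ := ε / (D * (‖S‖ * C) + 1) with hη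
  have hη0 : 0 < η := by positivity
  choose K hK using fun i => h5 (b i : E) η hη0
  refine ⟨∑ i, K i, ?_⟩
  set k := ∑ i, K i with hk
  have h1 : ∀ j ∈ range (2 ^ k), |φ k j (S (L k j))| ≤ ε := by
    intro j hj
    let v : W := ⟨S (L k j), ⟨_, rfl⟩⟩
    have hvn : ‖v‖ ≤ ‖S‖ * C :=
      (S.le_opNorm _).trans (mul_le_mul_of_nonneg_left (h4 k j (mem_range.1 hj)) (norm_nonneg _))
    have h2 : φ k j (S (L k j)) = ∑ i, f i v * φ k j (b i : E) := by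
      show φ k j (v : E) = _
      conv_lhs => rw [hv v]
      rw [Submodule.coe_sum, map_sum]
      refine Finset.sum_congr rfl fun i _ => ?_
      rw [Submodule.coe_smul, map_smul, smul_eq_mul]
    rw [h2]
    refine (Finset.abs_sum_le_sum_abs _ _).trans ?_
    have h3 : ∑ i, |f i v * φ k j (b i : E)| ≤ ∑ i, ‖f i‖ * (‖S‖ * C * η) := by
      refine Finset.sum_le_sum fun i _ => ?_
      rw [abs_mul, ← mul_assoc]
      have h6 : K i ≤ k :=
        Finset.single_le_sum (f := K) (fun _ _ => Nat.zero_le _) (Finset.mem_univ i)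
      refine mul_le_mul (((f i).le_opNorm v).trans ?_) (hK i k h6 j (mem_range.1 hj))
        (abs_nonneg _) (by positivity)
      exact mul_le_mul_of_nonneg_left hvn (norm_nonneg _)
    refine h3.trans ?_
    rw [← Finset.sum_mul, ← hD, ← mul_assoc, hη, ← mul_div_assoc, div_le_iff₀ (by positivity)]
    nlinarith
  unfold bet
  rw [abs_mul, abs_of_pos (by positivity : (0 : ℝ) < 1 / 2 ^ k)]
  have h3 : |∑ j ∈ range (2 ^ k), φ k j (S (L k j))| ≤ 2 ^ k * ε := by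
    refine (Finset.abs_sum_le_sum_abs _ _).trans ((Finset.sum_le_sum h1).trans (le_of_eq ?_))
    rw [Finset.sum_const, card_range, nsmul_eq_mul]
    push_cast
    ring
  calc (1 / 2 ^ k : ℝ) * |∑ j ∈ range (2 ^ k), φ k j (S (L k j))|
      ≤ (1 / 2 ^ k) * (2 ^ k * ε) := by gcongr
    _ = ε := by field_simp

theorem fst_tendsto : Tendsto (fun p : Idx => p.1) cofinite atTop := by
  rw [← Nat.cofinite_eq_atTop]
  refine Filter.tendsto_def.2 fun t ht => ?_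
  rw [Filter.mem_cofinite] at ht ⊢
  have h3 : ((fun p : Idx => p.1) ⁻¹' t)ᶜ = Sigma.fst ⁻¹' tᶜ := rfl
  rw [h3]
  have h4 : (Sigma.fst ⁻¹' tᶜ : Set Idx) = ⋃ k ∈ tᶜ, Set.range (fun i => (⟨k, i⟩ : Idx)) := by
    ext ⟨k, i⟩
    simp only [Set.mem_preimage, Set.mem_compl_iff, Set.mem_iUnion, Set.mem_range, exists_prop]
    constructor
    · intro h; exact ⟨k, h, i, rfl⟩
    · rintro ⟨k', h, i', h'⟩
      cases h'
      exact h
  rw [h4]
  exact ht.biUnion fun k _ => Set.finite_range _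

/-- failure of the approximation property from the data -/
theorem noAP_of_data {C : ℝ} (h1 : ∀ k, ∀ j < 2 ^ k, φ k j (L k j) = 1)
    (h2 : ∀ k, ∀ g < 2 ^ (k + 2), ‖yv s L k g‖ ≤ C)
    (h3 : ∀ k, ∀ g < 2 ^ (k + 2), ‖Ph s φ k g‖ ≤ C * cc k)
    (h4 : ∀ k, ∀ j < 2 ^ k, ‖L k j‖ ≤ C)
    (h5 : ∀ y : E, ∀ ε > 0, ∃ K, ∀ k ≥ K, ∀ j < 2 ^ k, |φ k j y| ≤ ε) :
    ∃ K : Set E, IsCompact K ∧ ∃ ε : ℝ, 0 < ε ∧ ∀ T : E →L[ℝ] E,
      FiniteDimensional ℝ (LinearMap.range (T : E →ₗ[ℝ] E)) → ¬ ∀ z ∈ K, ‖T z - z‖ ≤ ε := by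
  have hC : 0 ≤ C := (norm_nonneg _).trans (h4 0 0 (by norm_num))
  obtain ⟨B, hB⟩ := tendsto_cc.bddAbove_range
  have hB' : ∀ k : ℕ, (4 / 3 : ℝ) ^ k * cc k ≤ B := fun k => hB ⟨k, rfl⟩
  have hcc : ∀ k, 0 ≤ cc k := fun k => by unfold cc; positivity
  have hB0 : 0 ≤ B := (mul_nonneg (by positivity) (hcc 0)).trans (hB' 0)
  let ψ : Idx → E := fun p => (7 / 8 : ℝ) ^ p.1 • yv s L p.1 p.2
  have hψ : Tendsto ψ cofinite (𝓝 0) := by
    rw [tendsto_zero_iff_norm_tendsto_zero]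
    refine squeeze_zero (g := fun p : Idx => (7 / 8 : ℝ) ^ p.1 * C) (fun _ => norm_nonneg _)
      (fun p => ?_) ?_
    · show ‖(7 / 8 : ℝ) ^ p.1 • yv s L p.1 p.2‖ ≤ _
      rw [norm_smul, Real.norm_of_nonneg (by positivity)]
      exact mul_le_mul_of_nonneg_left (h2 _ _ p.2.2) (by positivity)
    · have := ((tendsto_pow_atTop_nhds_zero_of_lt_one (by norm_num : (0 : ℝ) ≤ 7 / 8)
        (by norm_num)).mul_const C).comp fst_tendsto
      rw [zero_mul] at this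
      exact this
  set D : ℝ := ‖φ 0 0‖ + 7 * (C * B) + 1 with hD
  have hD0 : 0 < D := by positivity
  refine ⟨insert (L 0 0) (insert 0 (Set.range ψ)),
    (Filter.Tendsto.isCompact_insert_range_of_cofinite hψ).insert _, 1 / (2 * D), by positivity,
    fun T hT hcon => ?_⟩
  set δ : ℝ := 1 / (2 * D) with hδ
  have hδ0 : 0 < δ := by positivity
  set S : E →L[ℝ] E := T - ContinuousLinearMap.id ℝ E with hS
  have hSz : ∀ z, S z = T z - z := fun z => rfl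
  have hstep : ∀ k, |bet φ L (k + 1) S - bet φ L k S| ≤ (6 / 7 : ℝ) ^ k * (C * B * δ) := by
    intro k
    have h6 : ∀ g < 2 ^ (k + 2), ‖S (yv s L k g)‖ ≤ (8 / 7 : ℝ) ^ k * δ := by
      intro g hg
      have h7 := hcon (ψ ⟨k, ⟨g, hg⟩⟩) (Or.inr (Or.inr ⟨_, rfl⟩))
      rw [← hSz] at h7
      have h8 : S (ψ ⟨k, ⟨g, hg⟩⟩) = (7 / 8 : ℝ) ^ k • S (yv s L k g) := map_smul _ _ _
      rw [h8, norm_smul, Real.norm_of_nonneg (by positivity)] at h7
      have h9 := mul_le_mul_of_nonneg_left h7 (by positivity : (0 : ℝ) ≤ (8 / 7 : ℝ) ^ k)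
      rw [← mul_assoc, ← mul_pow] at h9
      norm_num at h9
      exact h9
    refine (bet_succ_le s φ L k S (h3 k) h6).trans ?_
    have h10 : (8 / 7 : ℝ) ^ k = (6 / 7 : ℝ) ^ k * (4 / 3 : ℝ) ^ k := by
      rw [← mul_pow]; norm_num
    rw [h10]
    have h11 := hB' k
    calc C * cc k * ((6 / 7 : ℝ) ^ k * (4 / 3 : ℝ) ^ k * δ)
        = (6 / 7 : ℝ) ^ k * (C * ((4 / 3 : ℝ) ^ k * cc k) * δ) := by ring
      _ ≤ (6 / 7 : ℝ) ^ k * (C * B * δ) := by gcongr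
  have h0 : |bet φ L 0 S| ≤ ‖φ 0 0‖ * δ := by
    unfold bet
    rw [pow_zero, pow_zero, div_one, one_mul, Finset.sum_range_one]
    refine ((φ 0 0).le_opNorm _).trans (mul_le_mul_of_nonneg_left ?_ (norm_nonneg _))
    exact hcon _ (Or.inl rfl)
  have hk : ∀ k, |bet φ L k S| ≤ ‖φ 0 0‖ * δ + (7 - 7 * (6 / 7 : ℝ) ^ k) * (C * B * δ) := by
    intro k
    induction k with
    | zero => simpa using h0
    | succ k ih =>
      have h6 := abs_add_le (bet φ L (k + 1) S - bet φ L k S) (bet φ L k S)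
      rw [sub_add_cancel] at h6
      have h7 := hstep k
      rw [pow_succ]
      nlinarith
  obtain ⟨k, hk2⟩ := tendsto_bet φ L h4 h5 T hT (1 / 4) (by norm_num)
  have h6 : bet φ L k S = bet φ L k T - 1 := by
    unfold bet
    have h7 : ∀ j ∈ range (2 ^ k), φ k j (S (L k j)) = φ k j (T (L k j)) - 1 := by
      intro j hj
      rw [hSz, map_sub, h1 k j (mem_range.1 hj)]
    rw [Finset.sum_congr rfl h7, Finset.sum_sub_distrib, Finset.sum_const, card_range,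
      nsmul_eq_mul]
    push_cast
    field_simp
  have h8 := hk k
  have h9 : 0 ≤ (6 / 7 : ℝ) ^ k * (C * B * δ) := by positivity
  have h10 : D * δ = 1 / 2 := by rw [hδ]; field_simp
  have h11 : |bet φ L k S| ≤ 1 / 2 := by
    rw [hD] at h10
    nlinarith
  rw [h6, abs_le] at h11
  rw [abs_le] at hk2
  linarith [h11.1, hk2.2]

end Pool.Agent.H547Z.Free
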