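import Mathlib
import Pool.Agent.H547Z.Free.Avg
import Pool.Agent.H547Z.Free.Trace

set_option autoImplicit false

/-! The compact grid in the dual of Davie's space. -/

open Filter Topology Finset MeasureTheory

namespace Pool.Agent.H547Z.Free

open Pool.Agent.H812R2.AP Pool.Agent.H812R2.AP.Sys Pool.Agent.BAPp

variable (s : Sys)

/-- the dual of Davie's space -/
abbrev VV : Type := StrongDual ℝ (s.XT ℝ)

theorem val_le (z : s.XT ℝ) (x : ℕ × ℕ) : ‖s.val ℝ z x‖ ≤ ‖z‖ :=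
  (s.val ℝ z).norm_coe_le_norm x

/-- the biorthogonal functionals -/
noncomputable def alL (l j : ℕ) : VV s :=
  LinearMap.mkContinuous
    { toFun := fun z => s.al l j (s.val ℝ z)
      map_add' := fun z w => by rw [map_add, al_add]
      map_smul' := fun c z => by rw [map_smul, al_smul]; rfl } 1
    (fun z => by
      rw [one_mul]
      exact s.norm_al_le l j _ fun g => val_le s z _)

theorem alL_norm (l j : ℕ) : ‖alL s l j‖ ≤ 1 := LinearMap.mkContinuous_norm_le _ zero_le_one _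

/-- point evaluations -/
noncomputable def evL (x : ℕ × ℕ) : VV s :=
  LinearMap.mkContinuous
    { toFun := fun z => s.val ℝ z x
      map_add' := fun z w => by rw [map_add]; rfl
      map_smul' := fun c z => by rw [map_smul]; rfl } 1
    (fun z => by
      rw [one_mul]
      exact val_le s z x)

theorem evL_norm (x : ℕ × ℕ) : ‖evL s x‖ ≤ 1 := LinearMap.mkContinuous_norm_le _ zero_le_one _

theorem alL_EX {l j m i : ℕ} (hj : j < 2 ^ l) (hi : i < 2 ^ m) :
    alL s l j (s.EX ℝ m i) = if m = l ∧ i = j then 1 else 0 := by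
  show s.al l j (s.val ℝ (s.EX ℝ m i)) = _
  rw [s.EX_coe ℝ hi, s.al_E _ _ _ _ hj hi]

theorem EX_zero {l i : ℕ} (h : ¬ i < 2 ^ l) : s.EX ℝ l i = 0 := by
  unfold EX
  exact dif_neg h

theorem EX_norm (l i : ℕ) : ‖s.EX ℝ l i‖ ≤ 1 := by
  by_cases h : i < 2 ^ l
  · rw [← norm_val, s.EX_coe ℝ h]
    exact s.norm_E_le ℝ _ _
  · rw [EX_zero s h, norm_zero]; exact zero_le_one

/-- the span of the generators -/
noncomputable def SP : Submodule ℝ (s.XT ℝ) :=
  Submodule.span ℝ (Set.range fun p : ℕ × ℕ => s.EX ℝ p.1 p.2)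

theorem dense_SP : Dense (SP s : Set (s.XT ℝ)) := by
  intro x
  rw [Metric.mem_closure_iff]
  intro ε hε
  have hx : s.val ℝ x ∈ closure (Submodule.span ℝ (s.gens ℝ) : Set (Z ℝ)) := s.val_mem ℝ x
  obtain ⟨y, hy, hxy⟩ := Metric.mem_closure_iff.1 hx ε hε
  have hle : Submodule.span ℝ (s.gens ℝ) ≤ (SP s).map (s.val ℝ) := by
    refine Submodule.span_le.2 ?_
    rintro _ ⟨l, i, h, rfl⟩
    exact ⟨s.EX ℝ l i, Submodule.subset_span ⟨(l, i), rfl⟩, s.EX_coe ℝ h⟩
  obtain ⟨y', hy', rfl⟩ := hle hy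
  refine ⟨y', hy', ?_⟩
  rw [dist_eq_norm, ← norm_val, map_sub, ← dist_eq_norm]
  exact hxy

theorem ev_eq {k g : ℕ} (hg : g < 2 ^ (k + 2)) :
    ∑ j ∈ range (2 ^ k), s.sg k j g • alL s k j +
      ∑ j ∈ range (2 ^ (k + 1)), s.tt k j g • alL s (k + 1) j = evL s (k, g) := by
  refine ContinuousLinearMap.ext_on (dense_SP s) ?_
  rintro _ ⟨⟨m, i⟩, rfl⟩
  dsimp only
  by_cases hi : i < 2 ^ m
  swap
  · rw [EX_zero s hi, map_zero, map_zero]
  have h1 : evL s (k, g) (s.EX ℝ m i) =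
      if k = m then s.sg m i g else if k + 1 = m then s.tt k i g else 0 := by
    show s.val ℝ (s.EX ℝ m i) (k, g) = _
    rw [s.EX_coe ℝ hi, E_apply]
    unfold ee
    dsimp only
    rw [if_pos hg]
    rfl
  have h2 : ∀ (l : ℕ) (c : ℕ → ℝ), (∑ j ∈ range (2 ^ l), c j • alL s l j) (s.EX ℝ m i) =
      if m = l then c i else 0 := by
    intro l c
    rw [_root_.sum_apply]
    by_cases h : m = l
    · subst h
      rw [if_pos rfl, Finset.sum_eq_single i]
      · rw [smul_apply, alL_EX s hi hi, if_pos ⟨rfl, rfl⟩, smul_eq_mul, mul_one]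
      · intro j hj hji
        rw [smul_apply, alL_EX s (mem_range.1 hj) hi, if_neg (fun h => hji h.2.symm), smul_zero]
      · intro h; exact absurd (mem_range.2 hi) h
    · rw [if_neg h]
      refine Finset.sum_eq_zero fun j hj => ?_
      rw [smul_apply, alL_EX s (mem_range.1 hj) hi, if_neg (fun h' => h h'.1), smul_zero]
  rw [add_apply, h1, h2, h2]
  by_cases h3 : k = m
  · subst h3
    rw [if_pos rfl, if_neg (by omega), if_pos rfl, add_zero]
  · rw [if_neg (fun h => h3 h.symm), if_neg h3, zero_add]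
    by_cases h4 : k + 1 = m
    · rw [if_pos h4.symm, if_pos h4]
    · rw [if_neg (fun h => h4 h.symm), if_neg h4]

theorem pm_one {n : ℕ} (a : ℕ → ℝ) (h1 : ∀ g, |a g| ≤ 1) (h2 : ∑ g ∈ range n, a g * a g = n)
    {g : ℕ} (hg : g < n) : a g = 1 ∨ a g = -1 := by
  have h3 : ∀ g, 0 ≤ 1 - a g * a g := fun g => by
    have := abs_le.1 (h1 g)
    nlinarith [this.1, this.2]
  have h4 : ∑ g ∈ range n, (1 - a g * a g) = 0 := by
    rw [Finset.sum_sub_distrib, h2]; simp
  have h5 := (Finset.sum_eq_zero_iff_of_nonneg fun g _ => h3 g).1 h4 g (mem_range.2 hg)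
  have h6 : (a g - 1) * (a g + 1) = 0 := by linarith
  rcases mul_eq_zero.1 h6 with h | h
  · left; linarith
  · right; linarith

theorem sg_pm {k j g : ℕ} (hj : j < 2 ^ k) (hg : g < 2 ^ (k + 2)) :
    s.sg k j g = 1 ∨ s.sg k j g = -1 :=
  pm_one (s.sg k j) (s.sg_le k j) (by rw [s.sgsg k j hj j hj, if_pos rfl]; push_cast; rfl) hg

theorem tt_pm {k j g : ℕ} (hj : j < 2 ^ (k + 1)) (hg : g < 2 ^ (k + 2)) :
    s.tt k j g = 1 ∨ s.tt k j g = -1 :=
  pm_one (s.tt k j) (s.tt_le k j) (by rw [s.tttt k j hj j hj, if_pos rfl]; push_cast; rfl) hg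

/-- grid sizes -/
def NN (p : ℕ × ℕ) : ℕ := 4 ^ (p.1 + 1)

instance (p : ℕ × ℕ) : NeZero (NN p) := ⟨by unfold NN; positivity⟩

/-- mesh -/
noncomputable def hh (l : ℕ) : ℝ := 1 / (4 * 16 ^ l)

theorem hh_pos (l : ℕ) : 0 < hh l := by unfold hh; positivity

theorem hh_succ (l : ℕ) : 16 * hh (l + 1) = hh l := by
  unfold hh; rw [pow_succ]; field_simp

theorem NN_hh (p : ℕ × ℕ) : (NN p : ℝ) * hh p.1 = (1 / 4) ^ p.1 := by
  unfold NN hh
  have : (16 : ℝ) ^ p.1 = 4 ^ p.1 * 4 ^ p.1 := by rw [← mul_pow]; norm_num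
  rw [this, one_div_pow]
  push_cast
  rw [pow_succ]
  field_simp

/-- unit steps -/
noncomputable def uu (p : ℕ × ℕ) : VV s := if p.2 < 2 ^ p.1 then hh p.1 • alL s p.1 p.2 else 0

theorem uu_eq {l j : ℕ} (h : j < 2 ^ l) : uu s (l, j) = hh l • alL s l j := if_pos h

theorem uu_norm (p : ℕ × ℕ) : ‖uu s p‖ ≤ hh p.1 := by
  unfold uu
  split_ifs
  · rw [norm_smul, Real.norm_of_nonneg (hh_pos _).le]
    exact mul_le_of_le_one_right (hh_pos _).le (alL_norm s _ _)
  · rw [norm_zero]; exact (hh_pos _).le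

theorem uu_summable : Summable fun p => (NN p : ℝ) * ‖uu s p‖ := by
  have hb : Summable fun p : ℕ × ℕ => if p.2 < 2 ^ p.1 then ((1 / 4 : ℝ)) ^ p.1 else 0 := by
    refine (summable_prod_of_nonneg fun p => by dsimp only; split_ifs <;> positivity).2 ⟨?_, ?_⟩
    · intro l
      refine summable_of_ne_finset_zero (s := range (2 ^ l)) fun j hj => ?_
      exact if_neg (fun h => hj (mem_range.2 h))
    · have h1 : ∀ l : ℕ, ∑' j : ℕ, (if j < 2 ^ l then ((1 / 4 : ℝ)) ^ l else 0) = (1 / 2) ^ l := by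
        intro l
        rw [tsum_eq_sum (s := range (2 ^ l)) fun j hj => if_neg (fun h => hj (mem_range.2 h))]
        rw [Finset.sum_congr rfl fun j hj => if_pos (mem_range.1 hj), Finset.sum_const, card_range,
          nsmul_eq_mul]
        push_cast
        rw [← mul_pow]
        norm_num
      simp_rw [h1]
      exact summable_geometric_two
  refine Summable.of_nonneg_of_le (fun p => by positivity) (fun p => ?_) hb
  split_ifs with h
  · rw [← NN_hh]
    exact mul_le_mul_of_nonneg_left (uu_norm s p) (by positivity)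
  · unfold uu
    rw [if_neg h, norm_zero, mul_zero]

/-- the compact set -/
def MS : Set (VV s) :=
  Set.range fun q : Om NN × Om NN => Psi (uu s) q.1 + Psi (uu s) q.2

theorem MS_compact : IsCompact (MS s) :=
  isCompact_range (((cont_Psi (uu_summable s)).comp continuous_fst).add
    ((cont_Psi (uu_summable s)).comp continuous_snd))

theorem Psi_mem (a : Om NN) : Psi (uu s) a ∈ MS s :=
  ⟨(a, 0), by dsimp only; rw [Psi_zero, add_zero]⟩

theorem zero_mem : (0 : VV s) ∈ MS s := by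
  have := Psi_mem s 0
  rwa [Psi_zero] at this

theorem Psi_add_mem (a : Om NN) (p : ℕ × ℕ) : Psi (uu s) a + uu s p ∈ MS s := by
  refine ⟨(a, sing p 1 + 0), ?_⟩
  dsimp only
  have h1 : 1 < NN p := by
    unfold NN
    exact Nat.one_lt_pow (by omega) (by norm_num)
  have : Fact (1 < NN p) := ⟨h1⟩
  rw [Psi_shift (uu_summable s) p 0, Psi_zero, zero_add]
  show (0 : ZMod (NN p)) ≠ -1
  intro h
  have h2 : (1 : ZMod (NN p)) = 0 := by linear_combination h
  exact one_ne_zero h2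

theorem Psi_coord (a : Om NN) {l j : ℕ} (hj : j < 2 ^ l) :
    Psi (uu s) a (s.EX ℝ l j) = ((a (l, j)).val : ℝ) * hh l := by
  have h1 := (ContinuousLinearMap.apply ℝ ℝ (s.EX ℝ l j)).map_tsum
    (summable_term (uu_summable s) a)
  refine h1.trans ?_
  rw [tsum_eq_single (l, j)]
  · show (((a (l, j)).val : ℝ) • uu s (l, j)) (s.EX ℝ l j) = _
    rw [uu_eq s hj, smul_apply, smul_apply, alL_EX s hj hj, if_pos ⟨rfl, rfl⟩]
    simp
  · rintro ⟨m, i⟩ hne
    show (((a (m, i)).val : ℝ) • uu s (m, i)) (s.EX ℝ l j) = _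
    by_cases hi : i < 2 ^ m
    · rw [uu_eq s hi, smul_apply, smul_apply, alL_EX s hi hj,
        if_neg (fun h => hne (by rw [h.1, h.2]))]
      simp
    · unfold uu
      rw [if_neg hi]
      simp

theorem MS_coord {v : VV s} (hv : v ∈ MS s) (l j : ℕ) :
    ∃ n : ℕ, v (s.EX ℝ l j) = n * hh l ∧ (n : ℝ) * hh l ≤ 2 * (1 / 4) ^ l := by
  by_cases hj : j < 2 ^ l
  · obtain ⟨⟨a, b⟩, rfl⟩ := hv
    refine ⟨(a (l, j)).val + (b (l, j)).val, ?_, ?_⟩
    · dsimp only
      rw [add_apply, Psi_coord s a hj, Psi_coord s b hj]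
      push_cast
      ring
    · have h1 : ((a (l, j)).val : ℝ) ≤ NN (l, j) := by exact_mod_cast (ZMod.val_lt _).le
      have h2 : ((b (l, j)).val : ℝ) ≤ NN (l, j) := by exact_mod_cast (ZMod.val_lt _).le
      have h3 := NN_hh (l, j)
      have h4 := hh_pos l
      dsimp only at h3
      push_cast
      nlinarith
  · refine ⟨0, ?_, by simp⟩
    rw [EX_zero s hj, map_zero]
    simp

theorem loc_const {z : s.XT ℝ} (hz : z ∈ SP s) :
    ∃ η : ℝ, 0 < η ∧ ∀ v ∈ MS s, ∀ w ∈ MS s, ‖v - w‖ < η → v z = w z := by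
  refine Submodule.span_induction
    (p := fun z _ => ∃ η : ℝ, 0 < η ∧ ∀ v ∈ MS s, ∀ w ∈ MS s, ‖v - w‖ < η → v z = w z)
    ?_ ?_ ?_ ?_ hz
  · rintro _ ⟨⟨l, j⟩, rfl⟩
    refine ⟨hh l, hh_pos l, fun v hv w hw h => ?_⟩
    obtain ⟨n, hn, -⟩ := MS_coord s hv l j
    obtain ⟨m, hm, -⟩ := MS_coord s hw l j
    dsimp only
    have h1 : |(v - w) (s.EX ℝ l j)| < hh l := by
      refine lt_of_le_of_lt ((v - w).le_opNorm _) (lt_of_le_of_lt ?_ h)
      exact mul_le_of_le_one_right (norm_nonneg _) (EX_norm s l j)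
    rw [sub_apply, hn, hm, ← sub_mul, abs_mul, abs_of_pos (hh_pos l)] at h1
    have h2 : |(n : ℝ) - m| < 1 := by
      by_contra hc
      have := mul_le_mul_of_nonneg_right (not_lt.1 hc) (hh_pos l).le
      linarith
    have h3 : |(n : ℤ) - m| < 1 := by exact_mod_cast h2
    have h4 : n = m := by
      rw [abs_lt] at h3
      omega
    rw [hn, hm, h4]
  · exact ⟨1, one_pos, fun v _ w _ _ => by rw [map_zero, map_zero]⟩
  · rintro x y _ _ ⟨η, hη, h1⟩ ⟨η', hη', h2⟩
    refine ⟨min η η', lt_min hη hη', fun v hv w hw h => ?_⟩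
    rw [map_add, map_add, h1 v hv w hw (h.trans_le (min_le_left _ _)),
      h2 v hv w hw (h.trans_le (min_le_right _ _))]
  · rintro c x _ ⟨η, hη, h1⟩
    refine ⟨η, hη, fun v hv w hw h => ?_⟩
    rw [map_smul, map_smul, h1 v hv w hw h]

theorem exists_norming (w : VV s) (t : ℝ) (ht : 0 < t) :
    ∃ z ∈ SP s, ‖z‖ ≤ 1 ∧ ‖w‖ - t ≤ w z := by
  by_cases h : ‖w‖ - t < 0
  · exact ⟨0, Submodule.zero_mem _, by simp, by rw [map_zero]; exact h.le⟩
  obtain ⟨z0, hz1, hz2⟩ := w.exists_lt_apply_of_lt_opNorm (show ‖w‖ - t < ‖w‖ by linarith)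
  have hU : IsOpen {z : s.XT ℝ | ‖z‖ < 1 ∧ ‖w‖ - t < ‖w z‖} :=
    (isOpen_lt continuous_norm continuous_const).inter
      (isOpen_lt continuous_const w.continuous.norm)
  obtain ⟨z, hz, hz3, hz4⟩ := (dense_SP s).exists_mem_open hU ⟨z0, hz1, hz2⟩
  rcases le_total 0 (w z) with h0 | h0
  · refine ⟨z, hz, hz3.le, ?_⟩
    rw [Real.norm_of_nonneg h0] at hz4
    exact hz4.le
  · refine ⟨-z, Submodule.neg_mem _ hz, by rw [norm_neg]; exact hz3.le, ?_⟩
    rw [Real.norm_of_nonpos h0] at hz4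
    rw [map_neg]
    exact hz4.le

/-- locally constant Lipschitz functions almost realise the distance -/
theorem MS_sep (x y : MS s) (t : ℝ) (ht : 0 < t) : ∃ f : MS s → ℝ,
    (∀ a b, |f a - f b| ≤ dist a b) ∧ (∃ η : ℝ, 0 < η ∧ ∀ a b, dist a b < η → f a = f b) ∧
      dist x y - t ≤ f x - f y := by
  obtain ⟨z, hz, hz1, hz2⟩ := exists_norming s ((x : VV s) - y) t ht
  obtain ⟨η, hη, h⟩ := loc_const s hz
  refine ⟨fun a => (a : VV s) z, fun a b => ?_, ⟨η, hη, fun a b hab => ?_⟩, ?_⟩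
  · rw [Subtype.dist_eq, dist_eq_norm, ← sub_apply]
    exact (((a : VV s) - b).le_opNorm z).trans (mul_le_of_le_one_right (norm_nonneg _) hz1)
  · rw [Subtype.dist_eq, dist_eq_norm] at hab
    exact h a a.2 b b.2 hab
  · rw [Subtype.dist_eq, dist_eq_norm, ← sub_apply]
    exact hz2

end Pool.Agent.H547Z.Free
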