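import Mathlib
import Pool.Agent.H547Z.Free.Space

set_option autoImplicit false

/-! The free space over the grid fails the approximation property. -/

open Filter Topology Finset MeasureTheory

namespace Pool.Agent.H547Z.Free

open Pool.Agent.H812R2.AP Pool.Agent.H812R2.AP.Sys Pool.Agent.BAPp

variable (s : Sys)

/-- base point -/
noncomputable def x0 : MS s := ⟨0, zero_mem s⟩

variable {E : Type} [NormedAddCommGroup E] [NormedSpace ℝ E] [CompleteSpace E]

/-- the lifted basis vectors -/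
noncomputable def LL (δ : MS s → E) (k j : ℕ) : E :=
  (hh k)⁻¹ • ∫ a : Om NN, (δ ⟨Psi (uu s) a + uu s (k, j), Psi_add_mem s a (k, j)⟩ -
    δ ⟨Psi (uu s) a, Psi_mem s a⟩) ∂mu NN

theorem LL_apply (δ : MS s → E) (hδ : Continuous δ) (ψ : E →L[ℝ] ℝ) (f : VV s → ℝ) (c : ℝ)
    (hf : ∀ x : MS s, ψ (δ x) = c * f x) (k j : ℕ) :
    ψ (LL s δ k j) = (hh k)⁻¹ * (c * Aop NN (uu s) f (uu s (k, j))) := by
  have hc := cont_Psi (uu_summable s)
  have h1 : Continuous fun a : Om NN =>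
      (δ ⟨Psi (uu s) a + uu s (k, j), Psi_add_mem s a (k, j)⟩ -
        δ ⟨Psi (uu s) a, Psi_mem s a⟩) :=
    (hδ.comp ((hc.add continuous_const).subtype_mk _)).sub (hδ.comp (hc.subtype_mk _))
  unfold LL Aop
  rw [map_smul, smul_eq_mul, ← ψ.integral_comp_comm (integrable_cont h1), ← integral_const_mul c]
  congr 2
  funext a
  rw [map_sub, hf, hf, mul_sub]

theorem noAP (ρ : MS s → MS s → ℝ) (C : ℝ) (hC : 0 < C) (h1 : ∀ x y, dist x y ≤ C * ρ x y)
    (h2 : ∀ x y, ρ x y ≤ C * dist x y) (δ : MS s → E)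
    (hiso : ∀ x y, ‖δ x - δ y‖ = ρ x y)
    (hd : Dense ((Submodule.span ℝ (Set.range δ) : Submodule ℝ E) : Set E))
    (hu : ∀ f : MS s → ℝ, f (x0 s) = 0 → (∀ a b, |f a - f b| ≤ ρ a b) →
      ∃ φ : E →L[ℝ] ℝ, ‖φ‖ ≤ 1 ∧ ∀ x, φ (δ x) = f x) :
    ∃ K : Set E, IsCompact K ∧ ∃ ε : ℝ, 0 < ε ∧ ∀ T : E →L[ℝ] E,
      FiniteDimensional ℝ (LinearMap.range (T : E →ₗ[ℝ] E)) → ¬ ∀ z ∈ K, ‖T z - z‖ ≤ ε := by
  have hδ : Continuous δ := by
    refine (LipschitzWith.of_dist_le' (K := C) fun x y => ?_).continuous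
    rw [dist_eq_norm, hiso]
    exact h2 x y
  have hext : ∀ φ ψ : E →L[ℝ] ℝ, (∀ x, φ (δ x) = ψ (δ x)) → φ = ψ := by
    intro φ ψ h
    refine ContinuousLinearMap.ext_on hd ?_
    rintro _ ⟨x, rfl⟩
    exact h x
  -- functionals coming from the predual
  have hphi : ∀ z : s.XT ℝ, ∃ φ : E →L[ℝ] ℝ, ‖φ‖ ≤ C * ‖z‖ ∧ ∀ x, φ (δ x) = (x : VV s) z := by
    intro z
    by_cases hz : z = 0
    · exact ⟨0, by rw [hz]; simp, fun x => by rw [hz, map_zero]; rfl⟩
    have hz' : 0 < C * ‖z‖ := mul_pos hC (norm_pos_iff.2 hz)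
    obtain ⟨φ, hφ1, hφ2⟩ := hu (fun x => (C * ‖z‖)⁻¹ * (x : VV s) z)
      (by show (C * ‖z‖)⁻¹ * (0 : VV s) z = 0; simp) (fun a b => by
        rw [← mul_sub, abs_mul, abs_of_pos (inv_pos.2 hz'), inv_mul_le_iff₀ hz', ← sub_apply]
        refine (((a : VV s) - b).le_opNorm z).trans ?_
        have h3 := h1 a b
        rw [Subtype.dist_eq, dist_eq_norm] at h3
        have h4 := mul_le_mul_of_nonneg_right h3 (norm_nonneg z)
        linarith)
    refine ⟨(C * ‖z‖) • φ, ?_, fun x => ?_⟩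
    · rw [norm_smul, Real.norm_of_nonneg hz'.le]
      exact mul_le_of_le_one_right hz'.le hφ1
    · rw [smul_apply, hφ2, smul_eq_mul, ← mul_assoc, mul_inv_cancel₀ hz'.ne', one_mul]
  choose φz hφ1 hφ2 using hphi
  -- extension of functionals
  have hlip : ∀ ψ : E →L[ℝ] ℝ, ∃ f : VV s → ℝ, LipschitzWith 1 f ∧
      ∀ x : MS s, ψ (δ x) = (C * ‖ψ‖) * f x := by
    intro ψ
    by_cases hψ : ψ = 0
    · exact ⟨fun _ => 0, LipschitzWith.const' 0, fun x => by rw [hψ]; simp⟩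
    have hc : 0 < C * ‖ψ‖ := mul_pos hC (norm_pos_iff.2 hψ)
    classical
    let f0 : VV s → ℝ := fun v => if h : v ∈ MS s then (C * ‖ψ‖)⁻¹ * ψ (δ ⟨v, h⟩) else 0
    have hf0 : LipschitzOnWith 1 f0 (MS s) := by
      refine LipschitzOnWith.of_dist_le_mul fun a ha b hb => ?_
      simp only [f0, dif_pos ha, dif_pos hb]
      rw [Real.dist_eq, ← mul_sub, abs_mul, abs_of_pos (inv_pos.2 hc), NNReal.coe_one, one_mul,
        inv_mul_le_iff₀ hc, ← map_sub]
      refine (ψ.le_opNorm _).trans ?_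
      rw [hiso]
      have h3 := mul_le_mul_of_nonneg_left (h2 ⟨a, ha⟩ ⟨b, hb⟩) (norm_nonneg ψ)
      rw [Subtype.dist_eq] at h3
      linarith
    obtain ⟨f, hf1, hf2⟩ := hf0.extend_real
    refine ⟨f, hf1, fun x => ?_⟩
    rw [← hf2 x.2]
    simp only [f0, dif_pos x.2]
    rw [← mul_assoc, mul_inv_cancel₀ hc.ne', one_mul]
  refine noAP_of_data s (fun k j => φz (s.EX ℝ k j)) (LL s δ) (C := 42 * C) ?_ ?_ ?_ ?_ ?_
  · intro k j hj
    rw [LL_apply s δ hδ _ (fun v => v (s.EX ℝ k j)) 1 (fun x => by rw [hφ2, one_mul]), one_mul]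
    unfold Aop
    simp only [add_apply, add_sub_cancel_left]
    rw [integral_const, uu_eq s hj, smul_apply, alL_EX s hj hj, if_pos ⟨rfl, rfl⟩]
    have := (hh_pos k).ne'
    simp [this]
  · intro k g hg
    refine NormedSpace.norm_le_dual_bound ℝ _ (by positivity) fun ψ => ?_
    obtain ⟨f, hf1, hf2⟩ := hlip ψ
    have hk := hh_pos k
    have hb := lift_bound (N := NN) (uu_summable s) hf1
      ((range (2 ^ k)).disjSum (range (2 ^ (k + 1))))
      (Sum.elim (fun j => (k, j)) (fun j => (k + 1, j))) (Sum.elim (fun _ => 1) (fun _ => 16))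
      (Sum.elim (fun j => s.sg k j g) (fun j => s.tt k j g))
      (by
        rintro (j | j) hj
        · exact sg_pm s (mem_range.1 (Finset.inl_mem_disjSum.1 hj)) hg
        · exact tt_pm s (mem_range.1 (Finset.inr_mem_disjSum.1 hj)) hg)
      (9 * 2 ^ k / 4 ^ (k + 1)) (by
        rw [Finset.sum_disjSum]
        simp only [Sum.elim_inl, Sum.elim_inr, NN, Finset.sum_const, card_range, nsmul_eq_mul]
        push_cast
        refine le_of_eq ?_
        rw [pow_succ (4 : ℝ) (k + 1), pow_succ (2 : ℝ) k]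
        field_simp
        ring)
    rw [Finset.sum_disjSum, Finset.sum_disjSum, Finset.sum_disjSum] at hb
    simp only [Sum.elim_inl, Sum.elim_inr] at hb
    have e1 : ∑ j ∈ range (2 ^ k), s.sg k j g • ((1 : ℕ) : ℝ) • uu s (k, j) +
        ∑ j ∈ range (2 ^ (k + 1)), s.tt k j g • ((16 : ℕ) : ℝ) • uu s (k + 1, j) =
        hh k • evL s (k, g) := by
      rw [← ev_eq s hg, smul_add, Finset.smul_sum, Finset.smul_sum]
      congr 1
      · refine Finset.sum_congr rfl fun j hj => ?_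
        rw [uu_eq s (mem_range.1 hj), Nat.cast_one, one_smul, smul_comm]
      · refine Finset.sum_congr rfl fun j hj => ?_
        rw [uu_eq s (mem_range.1 hj), smul_smul ((16 : ℕ) : ℝ), Nat.cast_ofNat, hh_succ, smul_comm]
    have e2 : ‖hh k • evL s (k, g)‖ ≤ hh k := by
      rw [norm_smul, Real.norm_of_nonneg hk.le]
      exact mul_le_of_le_one_right hk.le (evL_norm s _)
    have e3 : ∑ j ∈ range (2 ^ k), ((1 : ℕ) : ℝ) * ‖uu s (k, j)‖ +
        ∑ j ∈ range (2 ^ (k + 1)), ((16 : ℕ) : ℝ) * ‖uu s (k + 1, j)‖ ≤ 3 * 2 ^ k * hh k := by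
      have a1 : ∑ j ∈ range (2 ^ k), ((1 : ℕ) : ℝ) * ‖uu s (k, j)‖ ≤
          ∑ _j ∈ range (2 ^ k), hh k := Finset.sum_le_sum fun j _ => by
        rw [Nat.cast_one, one_mul]; exact uu_norm s (k, j)
      have a2 : ∑ j ∈ range (2 ^ (k + 1)), ((16 : ℕ) : ℝ) * ‖uu s (k + 1, j)‖ ≤
          ∑ _j ∈ range (2 ^ (k + 1)), hh k := Finset.sum_le_sum fun j _ => by
        rw [Nat.cast_ofNat, ← hh_succ]
        exact mul_le_mul_of_nonneg_left (uu_norm s (k + 1, j)) (by norm_num)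
      rw [Finset.sum_const, card_range, nsmul_eq_mul] at a1 a2
      push_cast at a1 a2 ⊢
      have a3 : (2 : ℝ) ^ (k + 1) * hh k = 2 * 2 ^ k * hh k := by ring
      linarith
    rw [e1] at hb
    have e4 : 6 * (9 * 2 ^ k / 4 ^ (k + 1) : ℝ) * (3 * 2 ^ k * hh k) = 81 / 2 * hh k := by
      have : (4 : ℝ) ^ (k + 1) = 4 * (2 ^ k * 2 ^ k) := by
        rw [← mul_pow, pow_succ]; norm_num; ring
      rw [this]
      field_simp
      ring
    have e5 := mul_le_mul_of_nonneg_left e3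
      (by positivity : (0 : ℝ) ≤ 6 * (9 * 2 ^ k / 4 ^ (k + 1) : ℝ))
    have e6 : ψ (yv s (LL s δ) k g) = (hh k)⁻¹ * ((C * ‖ψ‖) *
        (∑ j ∈ range (2 ^ k), s.sg k j g * ((1 : ℕ) : ℝ) * Aop NN (uu s) f (uu s (k, j)) +
        ∑ j ∈ range (2 ^ (k + 1)), s.tt k j g * ((16 : ℕ) : ℝ) *
          Aop NN (uu s) f (uu s (k + 1, j)))) := by
      unfold yv
      rw [map_add, map_sum, map_sum, mul_add, mul_add, Finset.mul_sum, Finset.mul_sum,
        Finset.mul_sum, Finset.mul_sum]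
      congr 1
      · refine Finset.sum_congr rfl fun j _ => ?_
        rw [map_smul, LL_apply s δ hδ ψ f _ hf2, smul_eq_mul]
        push_cast
        ring
      · refine Finset.sum_congr rfl fun j _ => ?_
        rw [map_smul, LL_apply s δ hδ ψ f _ hf2, smul_eq_mul, ← hh_succ k]
        have := (hh_pos (k + 1)).ne'
        push_cast
        field_simp
    rw [e6, Real.norm_eq_abs, abs_mul, abs_mul, abs_of_pos (inv_pos.2 hk),
      abs_of_nonneg (by positivity : 0 ≤ C * ‖ψ‖), inv_mul_le_iff₀ hk]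
    have e7 := mul_le_mul_of_nonneg_left (show _ ≤ 42 * hh k from hb.trans (by linarith))
      (by positivity : 0 ≤ C * ‖ψ‖)
    linarith
  · intro k g hg
    have e1 : Ph s (fun k j => φz (s.EX ℝ k j)) k g = φz (s.Phi ℝ k g) := by
      refine hext _ _ fun x => ?_
      rw [hφ2]
      unfold Ph Phi
      simp only [sub_apply, smul_apply, _root_.sum_apply, hφ2, map_sub, map_smul, map_sum]
      rfl
    rw [e1]
    refine (hφ1 _).trans ?_
    have h3 := s.norm_Phi_le ℝ k g hg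
    have h4 : 0 ≤ cc k := (norm_nonneg _).trans h3
    nlinarith [mul_le_mul_of_nonneg_left h3 hC.le, mul_nonneg hC.le h4]
  · intro k j _
    refine NormedSpace.norm_le_dual_bound ℝ _ (by positivity) fun ψ => ?_
    obtain ⟨f, hf1, hf2⟩ := hlip ψ
    have hk := hh_pos k
    rw [LL_apply s δ hδ ψ f _ hf2, Real.norm_eq_abs, abs_mul, abs_mul, abs_of_pos (inv_pos.2 hk),
      abs_of_nonneg (by positivity : 0 ≤ C * ‖ψ‖), inv_mul_le_iff₀ hk]
    have h3 := (A_le (N := NN) (u := uu s) hf1 (uu s (k, j))).trans (uu_norm s (k, j))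
    have h4 := mul_le_mul_of_nonneg_left h3 (by positivity : 0 ≤ C * ‖ψ‖)
    have h5 : 0 ≤ C * ‖ψ‖ * hh k := by positivity
    dsimp only at h4
    nlinarith
  · have hsp : ∀ y ∈ Submodule.span ℝ (Set.range δ), ∀ ε > 0, ∃ K, ∀ k ≥ K, ∀ j < 2 ^ k,
        |φz (s.EX ℝ k j) y| ≤ ε := by
      intro y hy
      refine Submodule.span_induction (p := fun y _ => ∀ ε > 0, ∃ K, ∀ k ≥ K, ∀ j < 2 ^ k,
        |φz (s.EX ℝ k j) y| ≤ ε) ?_ ?_ ?_ ?_ hy
      · rintro _ ⟨x, rfl⟩ ε hε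
        obtain ⟨K, hK⟩ := exists_pow_lt_of_lt_one (show 0 < ε / 2 by positivity)
          (show (1 / 4 : ℝ) < 1 by norm_num)
        refine ⟨K, fun k hk j _ => ?_⟩
        obtain ⟨n, hn, hn'⟩ := MS_coord s x.2 k j
        rw [hφ2, hn, abs_of_nonneg (mul_nonneg (Nat.cast_nonneg _) (hh_pos k).le)]
        have : (1 / 4 : ℝ) ^ k ≤ (1 / 4) ^ K :=
          pow_le_pow_of_le_one (by norm_num) (by norm_num) hk
        linarith
      · intro ε hε
        exact ⟨0, fun k _ j _ => by rw [map_zero, abs_zero]; exact hε.le⟩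
      · intro x y _ _ hx hy ε hε
        obtain ⟨K, hK⟩ := hx (ε / 2) (by positivity)
        obtain ⟨K', hK'⟩ := hy (ε / 2) (by positivity)
        refine ⟨max K K', fun k hk j hj => ?_⟩
        rw [map_add]
        refine (abs_add_le _ _).trans ?_
        linarith [hK k (le_trans (le_max_left _ _) hk) j hj,
          hK' k (le_trans (le_max_right _ _) hk) j hj]
      · intro c x _ hx ε hε
        obtain ⟨K, hK⟩ := hx (ε / (|c| + 1)) (by positivity)
        refine ⟨K, fun k hk j hj => ?_⟩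
        rw [map_smul, smul_eq_mul, abs_mul]
        have h3 := hK k hk j hj
        have h4 : |c| * |φz (s.EX ℝ k j) x| ≤ (|c| + 1) * (ε / (|c| + 1)) := by
          gcongr
          linarith
        refine h4.trans (le_of_eq ?_)
        field_simp
    intro y ε hε
    obtain ⟨y', hy', hyy⟩ := Metric.mem_closure_iff.1 (hd y) (ε / (2 * C)) (by positivity)
    obtain ⟨K, hK⟩ := hsp y' hy' (ε / 2) (by positivity)
    refine ⟨K, fun k hk j hj => ?_⟩
    have h3 := hK k hk j hj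
    have h4 : |φz (s.EX ℝ k j) (y - y')| ≤ ε / 2 := by
      refine ((φz _).le_opNorm _).trans ?_
      have h5 : ‖φz (s.EX ℝ k j)‖ ≤ C :=
        (hφ1 _).trans (mul_le_of_le_one_right hC.le (EX_norm s k j))
      rw [dist_eq_norm] at hyy
      refine (mul_le_mul h5 hyy.le (norm_nonneg _) hC.le).trans (le_of_eq ?_)
      field_simp
    have h6 : φz (s.EX ℝ k j) y = φz (s.EX ℝ k j) (y - y') + φz (s.EX ℝ k j) y' := by
      rw [← map_add, sub_add_cancel]
    rw [h6]
    refine (abs_add_le _ _).trans ?_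
    linarith

end Pool.Agent.H547Z.Free
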