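import Mathlib

set_option autoImplicit false

/-! A model of the Lipschitz-free space, and the gauge lemma. -/

open Filter Topology Finset
open scoped ENNReal

namespace Pool.Agent.H547Z.Free

theorem exists_free {M : Type} (ρ : M → M → ℝ) (x0 : M) (hself : ∀ x, ρ x x = 0)
    (hcomm : ∀ x y, ρ x y = ρ y x) (htri : ∀ x y z, ρ x z ≤ ρ x y + ρ y z) :
    ∃ (E : Type) (_ : NormedAddCommGroup E) (_ : NormedSpace ℝ E) (_ : CompleteSpace E)
      (δ : M → E), δ x0 = 0 ∧ (∀ x y, ‖δ x - δ y‖ = ρ x y) ∧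
      Dense ((Submodule.span ℝ (Set.range δ) : Submodule ℝ E) : Set E) ∧
      ∀ f : M → ℝ, f x0 = 0 → (∀ a b, |f a - f b| ≤ ρ a b) →
        ∃ φ : E →L[ℝ] ℝ, ‖φ‖ ≤ 1 ∧ ∀ x, φ (δ x) = f x := by
  let B : Type := {f : M → ℝ // f x0 = 0 ∧ ∀ a b, |f a - f b| ≤ ρ a b}
  have hnn : ∀ x y, 0 ≤ ρ x y := fun x y => by
    have := htri x y x
    rw [hself, hcomm y x] at this
    linarith
  have hmem : ∀ x : M, Memℓp (fun f : B => f.1 x) ∞ := fun x => by
    refine memℓp_infty ⟨ρ x x0, ?_⟩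
    rintro _ ⟨f, rfl⟩
    have := f.2.2 x x0
    rwa [f.2.1, sub_zero] at this
  let d0 : M → lp (fun _ : B => ℝ) ∞ := fun x => ⟨_, hmem x⟩
  let S : Submodule ℝ (lp (fun _ : B => ℝ) ∞) := Submodule.span ℝ (Set.range d0)
  have hS : ∀ x, d0 x ∈ S.topologicalClosure := fun x =>
    S.le_topologicalClosure (Submodule.subset_span ⟨x, rfl⟩)
  have hcl : IsClosed (S.topologicalClosure : Set (lp (fun _ : B => ℝ) ∞)) :=
    S.isClosed_topologicalClosure
  refine ⟨S.topologicalClosure, inferInstance, inferInstance, hcl.completeSpace_coe,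
    fun x => ⟨d0 x, hS x⟩, ?_, fun x y => ?_, ?_, fun f hf0 hf => ?_⟩
  · ext f
    exact f.2.1
  · show ‖d0 x - d0 y‖ = ρ x y
    refine le_antisymm (lp.norm_le_of_forall_le (hnn x y) fun f => f.2.2 x y) ?_
    let f : B := ⟨fun a => ρ a y - ρ x0 y, sub_self _, fun a b => by
      rw [abs_le]
      have h1 := htri a b y
      have h2 := htri b a y
      rw [hcomm b a] at h2
      constructor <;> linarith⟩
    have h1 := lp.norm_apply_le_norm ENNReal.top_ne_zero (d0 x - d0 y) f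
    have h2 : (d0 x - d0 y) f = ρ x y := by
      show (ρ x y - ρ x0 y) - (ρ y y - ρ x0 y) = ρ x y
      rw [hself]; ring
    rw [h2, Real.norm_of_nonneg (hnn x y)] at h1
    exact h1
  · intro z
    rw [Metric.mem_closure_iff]
    intro ε hε
    have hz : (z : lp (fun _ : B => ℝ) ∞) ∈ closure (S : Set (lp (fun _ : B => ℝ) ∞)) := z.2
    obtain ⟨y, hy, hzy⟩ := Metric.mem_closure_iff.1 hz ε hε
    have hle : S ≤ (Submodule.span ℝ (Set.range fun x =>
        (⟨d0 x, hS x⟩ : S.topologicalClosure))).map S.topologicalClosure.subtype := by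
      refine Submodule.span_le.2 ?_
      rintro _ ⟨x, rfl⟩
      exact ⟨⟨d0 x, hS x⟩, Submodule.subset_span ⟨x, rfl⟩, rfl⟩
    obtain ⟨y', hy', rfl⟩ := hle hy
    exact ⟨y', hy', hzy⟩
  · let L : S.topologicalClosure →ₗ[ℝ] ℝ :=
      { toFun := fun z => (z : lp (fun _ : B => ℝ) ∞) ⟨f, hf0, hf⟩
        map_add' := fun _ _ => rfl
        map_smul' := fun _ _ => rfl }
    have hL : ∀ z, ‖L z‖ ≤ 1 * ‖z‖ := fun z => by
      rw [one_mul]
      exact lp.norm_apply_le_norm ENNReal.top_ne_zero (z : lp (fun _ : B => ℝ) ∞) _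
    exact ⟨L.mkContinuous 1 hL, LinearMap.mkContinuous_norm_le _ zero_le_one _, fun x => rfl⟩

section Gauge

/-- the gauge attached to a rapidly decreasing sequence -/
noncomputable def gau (τ : ℕ → ℝ) (t : ℝ) : ℝ := t + ∑' n, min t (τ n)

variable {τ : ℕ → ℝ}

theorem tau_le (h1 : ∀ n, τ (n + 1) ≤ τ n / 2) (n m : ℕ) : τ (m + n) ≤ τ n * (1 / 2) ^ m := by
  induction m with
  | zero => simp
  | succ m ih =>
    have := h1 (m + n)
    rw [show m + 1 + n = m + n + 1 by ring, pow_succ]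
    linarith

theorem tau_summable (h0 : ∀ n, 0 < τ n) (h1 : ∀ n, τ (n + 1) ≤ τ n / 2) : Summable τ :=
  Summable.of_nonneg_of_le (fun n => (h0 n).le) (fun n => tau_le h1 0 n)
    (summable_geometric_two.mul_left _)

theorem tau_anti (h0 : ∀ n, 0 < τ n) (h1 : ∀ n, τ (n + 1) ≤ τ n / 2) : Antitone τ :=
  antitone_nat_of_succ_le fun n => by linarith [h0 n, h1 n]

theorem min_summable (h0 : ∀ n, 0 < τ n) (h1 : ∀ n, τ (n + 1) ≤ τ n / 2) {t : ℝ} (ht : 0 ≤ t) :
    Summable fun n => min t (τ n) :=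
  Summable.of_nonneg_of_le (fun n => le_min ht (h0 n).le) (fun _ => min_le_right _ _)
    (tau_summable h0 h1)

theorem gau_cont (h0 : ∀ n, 0 < τ n) (h1 : ∀ n, τ (n + 1) ≤ τ n / 2) :
    ContinuousOn (gau τ) (Set.Ici 0) := by
  refine continuousOn_id.add (continuousOn_tsum (fun n => ?_) (tau_summable h0 h1) ?_)
  · exact (continuous_id.min continuous_const).continuousOn
  · intro n t ht
    rw [Real.norm_of_nonneg (le_min ht (h0 n).le)]
    exact min_le_right _ _

theorem gau_mono (h0 : ∀ n, 0 < τ n) (h1 : ∀ n, τ (n + 1) ≤ τ n / 2) :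
    StrictMonoOn (gau τ) (Set.Ici 0) := by
  intro a ha b hb hab
  refine add_lt_add_of_lt_of_le hab ?_
  exact (min_summable h0 h1 ha).tsum_le_tsum (fun n => min_le_min_right _ hab.le)
    (min_summable h0 h1 hb)

theorem gau_zero (h0 : ∀ n, 0 < τ n) : gau τ 0 = 0 := by
  unfold gau
  rw [tsum_congr fun n => min_eq_left (h0 n).le, tsum_zero, add_zero]

theorem gau_add (h0 : ∀ n, 0 < τ n) (h1 : ∀ n, τ (n + 1) ≤ τ n / 2) {a b : ℝ} (ha : 0 ≤ a)
    (hb : 0 ≤ b) : gau τ (a + b) ≤ gau τ a + gau τ b := by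
  have h2 : ∑' n, min (a + b) (τ n) ≤ ∑' n, (min a (τ n) + min b (τ n)) := by
    refine (min_summable h0 h1 (add_nonneg ha hb)).tsum_le_tsum (fun n => ?_)
      ((min_summable h0 h1 ha).add (min_summable h0 h1 hb))
    have := h0 n
    rcases le_total a (τ n) with h | h <;> rcases le_total b (τ n) with h' | h'
    · rw [min_eq_left h, min_eq_left h']; exact min_le_left _ _
    · rw [min_eq_left h, min_eq_right h']; linarith [min_le_right (a + b) (τ n)]
    · rw [min_eq_right h, min_eq_left h']; linarith [min_le_right (a + b) (τ n)]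
    · rw [min_eq_right h, min_eq_right h']; linarith [min_le_right (a + b) (τ n)]
  rw [(min_summable h0 h1 ha).tsum_add (min_summable h0 h1 hb)] at h2
  unfold gau
  linarith

theorem gau_lower (h0 : ∀ n, 0 < τ n) (h1 : ∀ n, τ (n + 1) ≤ τ n / 2) {t : ℝ} (ht : 0 ≤ t)
    (n : ℕ) (hn : ∀ m < n, t ≤ τ m) : (n + 1) * t ≤ gau τ t := by
  have h2 := (min_summable h0 h1 ht).sum_le_tsum (range n) fun m _ => le_min ht (h0 m).le
  rw [Finset.sum_congr rfl fun m hm => min_eq_left (hn m (mem_range.1 hm)), Finset.sum_const,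
    card_range, nsmul_eq_mul] at h2
  unfold gau
  linarith

theorem gau_upper (h0 : ∀ n, 0 < τ n) (h1 : ∀ n, τ (n + 1) ≤ τ n / 2) {t : ℝ} (ht : 0 ≤ t)
    (n : ℕ) (hn : τ n ≤ t) : gau τ t ≤ (n + 3) * t := by
  have h2 := (min_summable h0 h1 ht).sum_add_tsum_nat_add n
  have h3 : ∑ m ∈ range n, min t (τ m) ≤ n * t := by
    have := Finset.sum_le_sum (s := range n) fun m _ => min_le_left t (τ m)
    rwa [Finset.sum_const, card_range, nsmul_eq_mul] at this
  have h4 : ∑' m, min t (τ (m + n)) ≤ ∑' m : ℕ, τ n * (1 / 2) ^ m :=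
    ((summable_nat_add_iff n).2 (min_summable h0 h1 ht)).tsum_le_tsum
      (fun m => (min_le_right _ _).trans (tau_le h1 n m)) (summable_geometric_two.mul_left _)
  rw [tsum_mul_left, tsum_geometric_two] at h4
  unfold gau
  linarith

theorem gau_tendsto (h0 : ∀ n, 0 < τ n) (h1 : ∀ n, τ (n + 1) ≤ τ n / 2) :
    Tendsto (fun t => gau τ t / t) (𝓝[>] 0) atTop := by
  refine tendsto_atTop.2 fun b => ?_
  obtain ⟨n, hn⟩ := exists_nat_ge b
  filter_upwards [Ioo_mem_nhdsGT (h0 n)] with t ht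
  have h2 := gau_lower h0 h1 ht.1.le n fun m hm => ht.2.le.trans (tau_anti h0 h1 hm.le)
  rw [le_div_iff₀ ht.1]
  nlinarith [ht.1]

variable {M : Type} [MetricSpace M] [CompactSpace M]

theorem exists_pseudo (hsep : ∀ (x y : M) (t : ℝ), 0 < t → ∃ f : M → ℝ,
      (∀ a b, |f a - f b| ≤ dist a b) ∧ (∃ η : ℝ, 0 < η ∧ ∀ a b, dist a b < η → f a = f b) ∧
      dist x y - t ≤ f x - f y) (σ : ℝ) (hσ : 0 < σ) :
    ∃ (P : M → M → ℝ) (η : ℝ), 0 < η ∧ (∀ x y, 0 ≤ P x y) ∧ (∀ x y, P x y = P y x) ∧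
      (∀ x y z, P x z ≤ P x y + P y z) ∧ (∀ x y, P x y ≤ dist x y) ∧
      (∀ x y, dist x y - σ ≤ P x y) ∧ ∀ x y, dist x y < η → P x y = 0 := by
  classical
  choose f hf1 hf2 hf3 using fun p : M × M => hsep p.1 p.2 (σ / 5) (by positivity)
  choose η hη1 hη2 using hf2
  obtain ⟨T, -, hTf, hTc⟩ := (isCompact_univ (X := M × M)).finite_cover_balls
    (show 0 < σ / 5 by positivity)
  let F : Finset (M × M) := hTf.toFinset
  obtain ⟨η0, hη0, hη0'⟩ : ∃ η0 : ℝ, 0 < η0 ∧ ∀ p ∈ F, η0 ≤ η p := by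
    induction F using Finset.induction_on with
    | empty => exact ⟨1, one_pos, fun p hp => absurd hp (Finset.notMem_empty p)⟩
    | insert a F _ ih =>
      obtain ⟨e, he, he'⟩ := ih
      refine ⟨min e (η a), lt_min he (hη1 a), fun p hp => ?_⟩
      rcases Finset.mem_insert.1 hp with rfl | hp
      · exact min_le_right _ _
      · exact (min_le_left _ _).trans (he' p hp)
  let G : M → (F → ℝ) := fun x p => f p x
  refine ⟨fun x y => dist (G x) (G y), η0, hη0, fun x y => dist_nonneg, fun x y => dist_comm _ _,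
    fun x y z => dist_triangle _ _ _, fun x y => ?_, fun x y => ?_, fun x y h => ?_⟩
  · exact (dist_pi_le_iff dist_nonneg).2 fun p => hf1 p x y
  · have h1 := hTc (Set.mem_univ (x, y))
    rw [Set.mem_iUnion₂] at h1
    obtain ⟨p, hp, hxp⟩ := h1
    rw [Metric.mem_ball, Prod.dist_eq, max_lt_iff] at hxp
    have h2 := dist_le_pi_dist (G x) (G y) ⟨p, hTf.mem_toFinset.2 hp⟩
    have h3 : f p x - f p y ≤ dist (G x) (G y) := (le_abs_self _).trans h2
    have h4 := abs_le.1 (hf1 p x p.1)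
    have h5 := abs_le.1 (hf1 p y p.2)
    have h6 := hf3 p
    have h7 := dist_triangle4 x p.1 p.2 y
    rw [dist_comm p.2 y] at h7
    have h8 : dist x p.1 < σ / 5 := hxp.1
    have h9 : dist y p.2 < σ / 5 := hxp.2
    linarith [h4.1, h4.2, h5.1, h5.2]
  · rw [dist_eq_zero]
    funext p
    exact hη2 p x y (h.trans_le (hη0' p p.2))

theorem exists_gauge (hsep : ∀ (x y : M) (t : ℝ), 0 < t → ∃ f : M → ℝ,
      (∀ a b, |f a - f b| ≤ dist a b) ∧ (∃ η : ℝ, 0 < η ∧ ∀ a b, dist a b < η → f a = f b) ∧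
      dist x y - t ≤ f x - f y) :
    ∃ (τ : ℕ → ℝ) (d : M → M → ℝ), (∀ n, 0 < τ n) ∧ (∀ n, τ (n + 1) ≤ τ n / 2) ∧
      (∀ x y, 0 ≤ d x y) ∧ (∀ x y, d x y = d y x) ∧ (∀ x y z, d x z ≤ d x y + d y z) ∧
      (∀ x y, d x y ≤ dist x y) ∧ (∀ x y, dist x y ≤ 5 * gau τ (d x y)) ∧
      ∀ x y, gau τ (d x y) ≤ 5 * dist x y := by
  classical
  choose! P η hη hP0 hPc hPt hPl hPu hPz using exists_pseudo hsep
  obtain ⟨D, hD⟩ := Metric.isBounded_iff.1 (isCompact_univ (X := M)).isBounded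
  let τ : ℕ → ℝ := fun n => Nat.rec (|D| + 1)
    (fun n a => min (η (a / 2)) (a / (2 * ((n : ℝ) + 1)))) n
  have hτs : ∀ n, τ (n + 1) = min (η (τ n / 2)) (τ n / (2 * ((n : ℝ) + 1))) := fun n => rfl
  have h0 : ∀ n, 0 < τ n := by
    intro n
    induction n with
    | zero => show 0 < |D| + 1; positivity
    | succ n ih => rw [hτs]; exact lt_min (hη _ (by positivity)) (by positivity)
  have h2 : ∀ n, τ (n + 1) ≤ τ n / (2 * ((n : ℝ) + 1)) := fun n => min_le_right _ _
  have h1 : ∀ n, τ (n + 1) ≤ τ n / 2 := fun n => (h2 n).trans (by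
    have := h0 n
    have h3 : (0 : ℝ) ≤ n := Nat.cast_nonneg n
    gcongr
    linarith)
  have hh : ∀ n, 0 < τ n / 2 := fun n => by have := h0 n; positivity
  let q : ℕ → M → M → ℝ := fun n x y => P (τ n / 2) x y / ((n : ℝ) + 1)
  have hq0 : ∀ n x y, 0 ≤ q n x y := fun n x y => div_nonneg (hP0 _ (hh n) x y) (by positivity)
  have hq1 : ∀ n x y, q n x y ≤ dist x y := fun n x y => by
    have h3 : (0 : ℝ) ≤ n := Nat.cast_nonneg n
    refine (div_le_self (hP0 _ (hh n) x y) (by linarith)).trans (hPl _ (hh n) x y)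
  have hb : ∀ x y, BddAbove (Set.range fun n => q n x y) := fun x y =>
    ⟨dist x y, by rintro _ ⟨n, rfl⟩; exact hq1 n x y⟩
  let d : M → M → ℝ := fun x y => ⨆ n, q n x y
  have hd0 : ∀ x y, 0 ≤ d x y := fun x y => (hq0 0 x y).trans (le_ciSup (hb x y) 0)
  have hd1 : ∀ x y, d x y ≤ dist x y := fun x y => ciSup_le fun n => hq1 n x y
  have key : ∀ x y, x ≠ y → dist x y ≤ 2 * gau τ (d x y) ∧ gau τ (d x y) ≤ 5 * dist x y := by
    intro x y hxy
    have hr : 0 < dist x y := dist_pos.2 hxy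
    have hex : ∃ n, τ n ≤ dist x y := by
      have := (tau_summable h0 h1).tendsto_atTop_zero.eventually (ge_mem_nhds hr)
      exact this.exists
    obtain ⟨n, h3, h4⟩ : ∃ n, τ (n + 1) ≤ dist x y ∧ ∀ m ≤ n, dist x y < τ m := by
      obtain ⟨k, hk1, hk2⟩ := Nat.findX (p := fun n => τ n ≤ dist x y) hex
      cases k with
      | zero =>
        have h4 : dist x y ≤ D := hD (Set.mem_univ x) (Set.mem_univ y)
        have h5 : τ 0 = |D| + 1 := rfl
        have h6 : τ 0 ≤ dist x y := hk1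
        linarith [le_abs_self D]
      | succ n => exact ⟨n, hk1, fun m hm => not_le.1 (hk2 m (by omega))⟩
    have hn' : (0 : ℝ) ≤ n := Nat.cast_nonneg n
    have hup : d x y ≤ dist x y / ((n : ℝ) + 1) := by
      refine ciSup_le fun m => ?_
      by_cases hm : m < n
      · have h5 : P (τ m / 2) x y = 0 :=
          hPz _ (hh m) x y ((h4 (m + 1) hm).trans_le (by rw [hτs]; exact min_le_left _ _))
        show P (τ m / 2) x y / ((m : ℝ) + 1) ≤ _
        rw [h5, zero_div]
        positivity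
      · have h6 : (n : ℝ) ≤ m := by exact_mod_cast not_lt.1 hm
        show P (τ m / 2) x y / ((m : ℝ) + 1) ≤ _
        gcongr
        exact hPl _ (hh m) x y
    have hlo : dist x y / (2 * ((n : ℝ) + 2)) ≤ d x y := by
      refine le_trans ?_ (le_ciSup (hb x y) (n + 1))
      show _ ≤ P (τ (n + 1) / 2) x y / (((n + 1 : ℕ) : ℝ) + 1)
      have h5 := hPu _ (hh (n + 1)) x y
      push_cast
      rw [div_le_div_iff₀ (by positivity) (by positivity)]
      nlinarith
    constructor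
    · have h5 := gau_lower h0 h1 (hd0 x y) (n + 1) fun m hm =>
        (hd1 x y).trans (h4 m (by omega)).le
      rw [div_le_iff₀ (by positivity)] at hlo
      push_cast at h5
      nlinarith
    · have h5 : τ (n + 2) ≤ d x y := by
        refine (h2 (n + 1)).trans (le_trans ?_ hlo)
        push_cast
        rw [show (n : ℝ) + 1 + 1 = n + 2 by ring]
        gcongr
      have h6 := gau_upper h0 h1 (hd0 x y) (n + 2) h5
      rw [le_div_iff₀ (by positivity)] at hup
      push_cast at h6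
      nlinarith [hd0 x y]
  have hdz : ∀ x, d x x = 0 := fun x => le_antisymm (by simpa using hd1 x x) (hd0 x x)
  refine ⟨τ, d, h0, h1, hd0, fun x y => ?_, fun x y z => ?_, hd1, fun x y => ?_, fun x y => ?_⟩
  · refine iSup_congr fun n => ?_
    show P _ x y / _ = P _ y x / _
    rw [hPc _ (hh n)]
  · refine ciSup_le fun n => ?_
    have h3 : q n x z ≤ q n x y + q n y z := by
      show P _ x z / _ ≤ P _ x y / _ + P _ y z / _
      rw [← add_div]
      gcongr
      exact hPt _ (hh n) x y z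
    exact h3.trans (add_le_add (le_ciSup (hb x y) n) (le_ciSup (hb y z) n))
  · by_cases h : x = y
    · rw [h, dist_self, hdz, gau_zero h0, mul_zero]
    · have := key x y h
      linarith [this.1, dist_nonneg (x := x) (y := y)]
  · by_cases h : x = y
    · rw [h, dist_self, hdz, gau_zero h0, mul_zero]
    · exact (key x y h).2

end Gauge

end Pool.Agent.H547Z.Free
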