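import Mathlib
import Pool.Agent.H547Z.Free.Main
import Pool.Agent.H547Z.Free.Model

set_option autoImplicit false

open Filter Topology

namespace Pool.Agent.H547Z.Free

open Pool.Agent.H812R2.AP

instance (s : Sys) : CompactSpace (MS s) := isCompact_iff_compactSpace.1 (MS_compact s)

/-- a compact space whose locally constant functions separate points uniformly and whose free
space fails the approximation property -/
theorem q1 : ∃ (M : Type) (_ : MetricSpace M) (_ : CompactSpace M) (x0 : M),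
    (∀ x y : M, ∃ f : M → ℝ, (∀ a b : M, |f a - f b| ≤ 2 * dist a b) ∧
      (∃ η : ℝ, 0 < η ∧ ∀ a b : M, dist a b < η → f a = f b) ∧ f x - f y = dist x y) ∧
    ∃ (E : Type) (_ : NormedAddCommGroup E) (_ : NormedSpace ℝ E) (_ : CompleteSpace E)
      (δ : M → E), δ x0 = 0 ∧ (∀ x y, ‖δ x - δ y‖ = dist x y) ∧
      Dense ((Submodule.span ℝ (Set.range δ) : Submodule ℝ E) : Set E) ∧
      (∀ f : M → ℝ, f x0 = 0 → (∀ a b, |f a - f b| ≤ dist a b) →
        ∃ φ : E →L[ℝ] ℝ, ‖φ‖ ≤ 1 ∧ ∀ x, φ (δ x) = f x) ∧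
      ∃ K : Set E, IsCompact K ∧ ∃ ε : ℝ, 0 < ε ∧ ∀ T : E →L[ℝ] E,
        FiniteDimensional ℝ (LinearMap.range (T : E →ₗ[ℝ] E)) → ¬ ∀ z ∈ K, ‖T z - z‖ ≤ ε := by
  obtain ⟨s⟩ := exists_sys
  refine ⟨MS s, inferInstance, inferInstance, x0 s, fun x y => ?_, ?_⟩
  · by_cases hxy : x = y
    · exact ⟨fun _ => 0, fun a b => by simp, ⟨1, one_pos, fun _ _ _ => rfl⟩, by simp [hxy]⟩
    have hr : 0 < dist x y := dist_pos.2 hxy
    obtain ⟨f, h1, ⟨η, hη, h2⟩, h3⟩ := MS_sep s x y (dist x y / 2) (by positivity)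
    have h4 : 0 < f x - f y := by linarith
    refine ⟨fun a => dist x y / (f x - f y) * f a, fun a b => ?_,
      ⟨η, hη, fun a b h => by dsimp only; rw [h2 a b h]⟩, ?_⟩
    · rw [← mul_sub, abs_mul, abs_of_pos (div_pos hr h4)]
      refine mul_le_mul ?_ (h1 a b) (abs_nonneg _) (by norm_num)
      rw [div_le_iff₀ h4]
      linarith
    · rw [← mul_sub]
      field_simp
  · obtain ⟨E, i1, i2, i3, δ, h0, h1, h2, h3⟩ := exists_free (fun x y : MS s => dist x y) (x0 s)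
      dist_self dist_comm dist_triangle
    exact ⟨E, i1, i2, i3, δ, h0, h1, h2, h3,
      noAP s (fun x y => dist x y) 1 one_pos (fun x y => by simp) (fun x y => by simp) δ h1 h2 h3⟩

/-- a copy of the compact set -/
def Syn (s : Sys) : Type := MS s

theorem q2 : ∃ (M : Type) (_ : MetricSpace M) (_ : CompactSpace M) (x0 : M) (ω : ℝ → ℝ),
    (ContinuousOn ω (Set.Ici 0) ∧ StrictMonoOn ω (Set.Ici 0) ∧ ω 0 = 0 ∧
      (∀ a b : ℝ, 0 ≤ a → 0 ≤ b → ω (a + b) ≤ ω a + ω b) ∧ (∀ t ∈ Set.Icc (0 : ℝ) 1, t ≤ ω t) ∧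
      Tendsto (fun t => ω t / t) (𝓝[>] 0) atTop) ∧
    ∃ (E : Type) (_ : NormedAddCommGroup E) (_ : NormedSpace ℝ E) (_ : CompleteSpace E)
      (δ : M → E), δ x0 = 0 ∧ (∀ x y, ‖δ x - δ y‖ = ω (dist x y)) ∧
      Dense ((Submodule.span ℝ (Set.range δ) : Submodule ℝ E) : Set E) ∧
      (∀ f : M → ℝ, f x0 = 0 → (∀ a b, |f a - f b| ≤ ω (dist a b)) →
        ∃ φ : E →L[ℝ] ℝ, ‖φ‖ ≤ 1 ∧ ∀ x, φ (δ x) = f x) ∧
      ∃ K : Set E, IsCompact K ∧ ∃ ε : ℝ, 0 < ε ∧ ∀ T : E →L[ℝ] E,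
        FiniteDimensional ℝ (LinearMap.range (T : E →ₗ[ℝ] E)) → ¬ ∀ z ∈ K, ‖T z - z‖ ≤ ε := by
  obtain ⟨s⟩ := exists_sys
  obtain ⟨τ, d, h0, h1, hd0, hdc, hdt, hd1, hlo, hup⟩ := exists_gauge (MS_sep s)
  have hdz : ∀ x, d x x = 0 := fun x => le_antisymm (by simpa using hd1 x x) (hd0 x x)
  let inst : MetricSpace (Syn s) :=
    { dist := fun x y => d x y
      dist_self := hdz
      dist_comm := hdc
      dist_triangle := hdt
      eq_of_dist_eq_zero := fun {x y} h => by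
        have h2 := hlo x y
        have h3 : d x y = 0 := h
        rw [h3, gau_zero h0, mul_zero] at h2
        exact (dist_le_zero (γ := MS s)).1 h2 }
  have hcomp : CompactSpace (Syn s) := by
    let e : MS s → Syn s := fun x => x
    have he : Continuous e :=
      (LipschitzWith.of_dist_le_mul (K := 1) fun x y => by
        rw [NNReal.coe_one, one_mul]; exact hd1 x y).continuous
    exact (show Function.Surjective e from fun x => ⟨x, rfl⟩).compactSpace he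
  obtain ⟨E, i1, i2, i3, δ, e0, e1, e2, e3⟩ :=
    exists_free (fun x y : MS s => gau τ (d x y)) (x0 s)
      (fun x => by rw [hdz, gau_zero h0]) (fun x y => by rw [hdc])
      (fun x y z => ((gau_mono h0 h1).monotoneOn (hd0 x z)
        (add_nonneg (hd0 x y) (hd0 y z)) (hdt x y z)).trans (gau_add h0 h1 (hd0 x y) (hd0 y z)))
  refine ⟨Syn s, inst, hcomp, x0 s, gau τ, ⟨gau_cont h0 h1, gau_mono h0 h1, gau_zero h0,
    fun a b ha hb => gau_add h0 h1 ha hb, fun t ht => ?_, gau_tendsto h0 h1⟩,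
    E, i1, i2, i3, δ, e0, e1, e2, e3,
    noAP s (fun x y => gau τ (d x y)) 5 (by norm_num) hlo hup δ e1 e2 e3⟩
  have := gau_lower h0 h1 ht.1 0 (fun m hm => absurd hm (Nat.not_lt_zero m))
  simpa using this

end Pool.Agent.H547Z.Free
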